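import Mathlib

set_option autoImplicit false

open Set Metric

namespace Pool.Agent.Fac573

/-- The Euclidean plane. -/
abbrev E := EuclideanSpace ℝ (Fin 2)

/-- The intersection of the closed disks of radius `r` centred at the points of `C`. -/
def D (C : Finset E) (r : ℝ) : Set E := ⋂ c ∈ C, Metric.closedBall c r

lemma mem_D {C : Finset E} {r : ℝ} {z : E} : z ∈ D C r ↔ ∀ c ∈ C, dist z c ≤ r := by
  simp [D]

lemma isClosed_D (C : Finset E) (r : ℝ) : IsClosed (D C r) :=
  isClosed_biInter fun _ _ => isClosed_closedBall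

lemma isCompact_D {C : Finset E} (hC : C.Nonempty) (r : ℝ) : IsCompact (D C r) := by
  obtain ⟨c, hc⟩ := hC
  refine IsCompact.of_isClosed_subset (isCompact_closedBall c r) (isClosed_D C r) ?_
  exact biInter_subset_of_mem (s := (C : Set E)) (t := fun c => closedBall c r) hc

lemma aux_convex_sq (a b : E) (s : ℝ) :
    ‖(1 - s) • a + s • b‖ ^ 2 = (1 - s) * ‖a‖ ^ 2 + s * ‖b‖ ^ 2 - s * (1 - s) * ‖b - a‖ ^ 2 := by
  rw [norm_add_sq_real, norm_sub_sq_real, norm_smul, norm_smul, inner_smul_left, inner_smul_right,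
    real_inner_comm a b, mul_pow, mul_pow, Real.norm_eq_abs, Real.norm_eq_abs, sq_abs, sq_abs]
  simp only [conj_trivial]
  ring

/-- The basic support inequality. -/
lemma key_K {C : Finset E} {r : ℝ} (hr : 0 < r) {p v : E} (hv : ‖v‖ = 1)
    (hp : p ∈ D C r) (hmax : ∀ z ∈ D C r, inner ℝ z v ≤ inner ℝ p v) {z : E} (hz : z ∈ D C r) :
    ‖z - p‖ ^ 2 + 2 * r * inner ℝ (z - p) v ≤ 0 := by
  have h1 : ∀ s : ℝ, 0 < s → s < 1 →
      inner ℝ (z - p) v + (1 - s) * ‖z - p‖ ^ 2 / (2 * r) ≤ 0 := by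
    intro s hs0 hs1
    have h1s : 0 < 1 - s := by linarith
    set δ := s * ((1 - s) * ‖z - p‖ ^ 2 / (2 * r)) with hδ
    have hδ0 : 0 ≤ δ := by positivity
    have hδr : 2 * r * δ = s * (1 - s) * ‖z - p‖ ^ 2 := by
      rw [hδ]; field_simp
    have hmem : p + s • (z - p) + δ • v ∈ D C r := by
      rw [mem_D]
      intro c hc
      have e1 : p + s • (z - p) + δ • v - c = ((1 - s) • (p - c) + s • (z - c)) + δ • v := by
        module
      have hpc : ‖p - c‖ ≤ r := by
        have := mem_D.1 hp c hc; rwa [dist_eq_norm] at this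
      have hzc : ‖z - c‖ ≤ r := by
        have := mem_D.1 hz c hc; rwa [dist_eq_norm] at this
      have h2 : ‖(1 - s) • (p - c) + s • (z - c)‖ ^ 2 ≤ r ^ 2 - 2 * r * δ := by
        rw [aux_convex_sq]
        have e2 : z - c - (p - c) = z - p := by abel
        rw [e2, hδr]
        have hpc2 : ‖p - c‖ ^ 2 ≤ r ^ 2 := pow_le_pow_left₀ (norm_nonneg _) hpc 2
        have hzc2 : ‖z - c‖ ^ 2 ≤ r ^ 2 := pow_le_pow_left₀ (norm_nonneg _) hzc 2
        nlinarith
      have h3 : 0 ≤ r - δ := by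
        have : 0 ≤ r ^ 2 - 2 * r * δ := le_trans (sq_nonneg _) h2
        nlinarith
      have h4 : ‖(1 - s) • (p - c) + s • (z - c)‖ ≤ r - δ := by
        apply le_of_sq_le_sq _ h3
        nlinarith [sq_nonneg δ]
      rw [dist_eq_norm, e1]
      calc ‖((1 - s) • (p - c) + s • (z - c)) + δ • v‖
          ≤ ‖(1 - s) • (p - c) + s • (z - c)‖ + ‖δ • v‖ := norm_add_le _ _
        _ ≤ (r - δ) + δ := by
            rw [norm_smul, hv, Real.norm_of_nonneg hδ0]; linarith
        _ = r := by ring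
    have h5 := hmax _ hmem
    rw [inner_add_left, inner_add_left, inner_smul_left, inner_smul_left,
      real_inner_self_eq_norm_sq, hv] at h5
    simp only [conj_trivial] at h5
    have h6 : s * (inner ℝ (z - p) v + (1 - s) * ‖z - p‖ ^ 2 / (2 * r)) ≤ 0 := by
      have : s * inner ℝ (z - p) v + δ ≤ 0 := by linarith
      rw [hδ] at this
      linarith
    by_contra hcon
    push Not at hcon
    have := mul_pos hs0 hcon
    linarith
  have h2 : inner ℝ (z - p) v + (1 - 0) * ‖z - p‖ ^ 2 / (2 * r) ≤ 0 := by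
    have hcont : Filter.Tendsto
        (fun s : ℝ => inner ℝ (z - p) v + (1 - s) * ‖z - p‖ ^ 2 / (2 * r))
        (nhdsWithin 0 (Ioi 0))
        (nhds (inner ℝ (z - p) v + (1 - 0) * ‖z - p‖ ^ 2 / (2 * r))) := by
      apply tendsto_nhdsWithin_of_tendsto_nhds
      apply Continuous.tendsto
      fun_prop
    refine le_of_tendsto hcont ?_
    filter_upwards [Ioo_mem_nhdsGT (show (0:ℝ) < 1 by norm_num)] with s hs
    exact h1 s hs.1 hs.2
  have h3 : (1 - 0) * ‖z - p‖ ^ 2 / (2 * r) = ‖z - p‖ ^ 2 / (2 * r) := by ring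
  rw [h3] at h2
  have h4 : 2 * r * (inner ℝ (z - p) v + ‖z - p‖ ^ 2 / (2 * r)) ≤ 0 :=
    mul_nonpos_of_nonneg_of_nonpos (by positivity) h2
  have h5 : 2 * r * (inner ℝ (z - p) v + ‖z - p‖ ^ 2 / (2 * r)) =
      ‖z - p‖ ^ 2 + 2 * r * inner ℝ (z - p) v := by
    field_simp; ring
  linarith

end Pool.Agent.Fac573
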