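import Mathlib
import Pool.Agent.MP_fac573_co.Basic

set_option autoImplicit false

open Set Metric Real

namespace Pool.Agent.Fac573

noncomputable def e0 : E := EuclideanSpace.single 0 1
noncomputable def e1 : E := EuclideanSpace.single 1 1

/-- The unit vector at angle `θ`. -/
noncomputable def u (θ : ℝ) : E := cos θ • e0 + sin θ • e1
/-- Its derivative. -/
noncomputable def w (θ : ℝ) : E := (-sin θ) • e0 + cos θ • e1

@[simp] lemma u_zero (θ : ℝ) : (u θ) 0 = cos θ := by simp [u, e0, e1]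
@[simp] lemma u_one (θ : ℝ) : (u θ) 1 = sin θ := by simp [u, e0, e1]
@[simp] lemma w_zero (θ : ℝ) : (w θ) 0 = -sin θ := by simp [w, e0, e1]
@[simp] lemma w_one (θ : ℝ) : (w θ) 1 = cos θ := by simp [w, e0, e1]

lemma inner_def (x y : E) : inner ℝ x y = x 0 * y 0 + x 1 * y 1 := by
  simp [PiLp.inner_apply, Fin.sum_univ_two]; ring

lemma inner_u_u (a b : ℝ) : inner ℝ (u a) (u b) = cos (a - b) := by
  rw [inner_def, cos_sub]; simp

lemma inner_w_w (a b : ℝ) : inner ℝ (w a) (w b) = cos (a - b) := by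
  rw [inner_def, cos_sub]; simp; ring

lemma inner_w_u (a : ℝ) : inner ℝ (w a) (u a) = 0 := by
  rw [inner_def]; simp; ring

lemma norm_u (a : ℝ) : ‖u a‖ = 1 := by
  have : ‖u a‖ ^ 2 = 1 := by
    rw [← real_inner_self_eq_norm_sq, inner_u_u]; simp
  have h0 := norm_nonneg (u a)
  nlinarith

lemma norm_w (a : ℝ) : ‖w a‖ = 1 := by
  have : ‖w a‖ ^ 2 = 1 := by
    rw [← real_inner_self_eq_norm_sq, inner_w_w]; simp
  have h0 := norm_nonneg (w a)
  nlinarith

lemma ext2 {x y : E} (h0 : x 0 = y 0) (h1 : x 1 = y 1) : x = y := by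
  ext i; fin_cases i
  · exact h0
  · exact h1

lemma u_add_pi (a : ℝ) : u (a + π) = - u a := by
  apply ext2 <;> simp

lemma u_add_two_pi (a : ℝ) : u (a + 2 * π) = u a := by
  apply ext2 <;> simp

lemma w_add_two_pi (a : ℝ) : w (a + 2 * π) = w a := by
  apply ext2 <;> simp

lemma hasDerivAt_u (a : ℝ) : HasDerivAt u (w a) a := by
  have h1 := (hasDerivAt_cos a).smul_const e0
  have h2 := (hasDerivAt_sin a).smul_const e1
  exact h1.add h2

lemma hasDerivAt_w (a : ℝ) : HasDerivAt w (-u a) a := by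
  have h1 := (hasDerivAt_sin a).neg.smul_const e0
  have h2 := (hasDerivAt_cos a).smul_const e1
  have h3 := h1.add h2
  have : -u a = (-cos a) • e0 + (-sin a) • e1 := by
    simp only [u]; module
  rw [this]
  exact h3

lemma continuous_u : Continuous u := continuous_iff_continuousAt.2 fun a => (hasDerivAt_u a).continuousAt
lemma continuous_w : Continuous w := continuous_iff_continuousAt.2 fun a => (hasDerivAt_w a).continuousAt

lemma u_sub_u (a b : ℝ) : u b - u a = (2 * sin ((b - a) / 2)) • w ((a + b) / 2) := by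
  apply ext2
  · simp
    rw [cos_sub_cos]
    have : (b + a) / 2 = (a + b) / 2 := by ring
    rw [this]; ring
  · simp
    rw [sin_sub_sin]
    have : (b + a) / 2 = (a + b) / 2 := by ring
    rw [this]

lemma norm_u_sub_u (a b : ℝ) : ‖u b - u a‖ = 2 * |sin ((b - a) / 2)| := by
  rw [u_sub_u, norm_smul, norm_w, Real.norm_eq_abs, abs_mul]; simp

lemma exists_polar (x : E) : ∃ (ρ ω : ℝ), 0 ≤ ρ ∧ x = ρ • u ω := by
  let z : ℂ := ⟨x 0, x 1⟩
  refine ⟨‖z‖, z.arg, norm_nonneg _, ?_⟩
  apply ext2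
  · simp [z]
  · simp [z]

lemma lip_u (a b : ℝ) : ‖u b - u a‖ ≤ |b - a| := by
  rw [norm_u_sub_u]
  have h := Real.abs_sin_le_abs (x := (b - a) / 2)
  rw [abs_div] at h
  simp at h
  linarith

end Pool.Agent.Fac573
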