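import Mathlib
import Pool.Agent.MP_fac573_co.Circ

set_option autoImplicit false

open Set Metric Real

namespace Pool.Agent.Fac573

/-- Jung's theorem in the plane, for finite sets. -/
lemma jung {C : Finset E} (hC : C.Nonempty) {t : ℝ} (ht : 0 < t)
    (hdiam : ∀ x ∈ C, ∀ y ∈ C, dist x y ≤ t) :
    ∃ z : E, ∀ c ∈ C, dist z c ≤ t / √3 := by
  set F : E → ℝ := fun z => C.sup' hC (fun c => dist z c) with hF
  have hFc : Continuous F := by
    apply Continuous.finset_sup'_apply
    intro c _
    fun_prop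
  have hFle : ∀ z, ∀ c ∈ C, dist z c ≤ F z := fun z c hc =>
    Finset.le_sup' (fun c => dist z c) hc
  have hDt : (D C t).Nonempty := by
    obtain ⟨c, hc⟩ := hC
    exact ⟨c, mem_D.2 fun c' hc' => hdiam c hc c' hc'⟩
  obtain ⟨z, hzD, hzmin⟩ := (isCompact_D hC t).exists_isMinOn hDt hFc.continuousOn
  set R := F z with hR
  have hRt : R ≤ t := by
    rw [hR, hF]
    apply Finset.sup'_le
    intro c hc
    exact mem_D.1 hzD c hc
  have hR0 : 0 ≤ R := by
    obtain ⟨c, hc⟩ := hC
    exact dist_nonneg.trans (hFle z c hc)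
  have hglob : ∀ y, R ≤ F y := by
    intro y
    by_cases hy : y ∈ D C t
    · exact hzmin hy
    · rw [mem_D] at hy
      push Not at hy
      obtain ⟨c, hc, hlt⟩ := hy
      exact (hRt.trans hlt.le).trans (hFle y c hc)
  set A := C.filter (fun c => dist z c = R) with hA
  have hzA : z ∈ convexHull ℝ (A : Set E) := by
    by_contra hcon
    -- nonempty
    have hAne : A.Nonempty := by
      obtain ⟨c, hc, hcR⟩ := Finset.exists_mem_eq_sup' hC (fun c => dist z c)
      exact ⟨c, by rw [hA, Finset.mem_filter]; exact ⟨hc, hcR.symm⟩⟩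
    have hKne : (convexHull ℝ (A : Set E)).Nonempty :=
      (Finset.coe_nonempty.2 hAne).convexHull
    have hKc : IsCompact (convexHull ℝ (A : Set E)) := A.finite_toSet.isCompact_convexHull ℝ
    obtain ⟨y, hyK, hy⟩ := exists_norm_eq_iInf_of_complete_convex hKne hKc.isComplete
      (convex_convexHull ℝ _) z
    rw [norm_eq_iInf_iff_real_inner_le_zero (convex_convexHull ℝ _) hyK] at hy
    set q := y - z with hq
    have hqne : q ≠ 0 := by
      intro h
      rw [hq, sub_eq_zero] at h
      exact hcon (h ▸ hyK)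
    have hq2 : 0 < ‖q‖ ^ 2 := by
      have := norm_pos_iff.2 hqne
      positivity
    have hinner : ∀ a ∈ A, ‖q‖ ^ 2 ≤ inner ℝ (a - z) q := by
      intro a ha
      have h1 := hy a (subset_convexHull ℝ _ ha)
      have e1 : z - y = -q := by rw [hq]; abel
      have e2 : a - y = (a - z) - q := by rw [hq]; abel
      rw [e1, e2, inner_neg_left, inner_sub_right, real_inner_self_eq_norm_sq,
        real_inner_comm] at h1
      linarith
    have hev : ∀ c ∈ C, ∀ᶠ ε : ℝ in nhdsWithin 0 (Ioi 0), dist (z + ε • q) c < R := by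
      intro c hc
      by_cases hcA : c ∈ A
      · have hlt1 : ∀ᶠ ε : ℝ in nhdsWithin 0 (Ioi 0), ε < 1 :=
          (eventually_lt_nhds (show (0:ℝ) < 1 by norm_num)).filter_mono nhdsWithin_le_nhds
        filter_upwards [hlt1, self_mem_nhdsWithin] with ε hε1 hε0
        have hε0 : 0 < ε := hε0
        have hcR : ‖z - c‖ = R := by
          rw [← dist_eq_norm]
          rw [hA, Finset.mem_filter] at hcA
          exact hcA.2
        rw [dist_eq_norm]
        apply lt_of_pow_lt_pow_left₀ 2 hR0
        have e : z + ε • q - c = (z - c) + ε • q := by abel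
        have e' : inner ℝ (z - c) q = - inner ℝ (c - z) q := by
          rw [← inner_neg_left, neg_sub]
        rw [e, norm_add_sq_real, inner_smul_right, hcR, norm_smul, mul_pow, Real.norm_eq_abs,
          sq_abs, e']
        have h1 := hinner c hcA
        have h2 : ε * ‖q‖ ^ 2 ≤ ε * inner ℝ (c - z) q := mul_le_mul_of_nonneg_left h1 hε0.le
        have h3 : ε ^ 2 * ‖q‖ ^ 2 < ε * ‖q‖ ^ 2 := by
          apply mul_lt_mul_of_pos_right _ hq2
          nlinarith
        have h4 : 0 < ε * ‖q‖ ^ 2 := by positivity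
        linarith
      · have hlt : dist z c < R := by
          apply lt_of_le_of_ne (hFle z c hc)
          intro h
          exact hcA (by rw [hA, Finset.mem_filter]; exact ⟨hc, h⟩)
        have ht : Filter.Tendsto (fun ε : ℝ => dist (z + ε • q) c)
            (nhdsWithin 0 (Ioi 0)) (nhds (dist (z + (0:ℝ) • q) c)) := by
          apply tendsto_nhdsWithin_of_tendsto_nhds
          apply Continuous.tendsto
          fun_prop
        have h2 : dist (z + (0:ℝ) • q) c < R := by simpa using hlt
        exact ht.eventually_lt_const h2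
    have hev2 := (Filter.eventually_all_finset C).2 hev
    obtain ⟨ε, hε⟩ := hev2.exists
    have h3 : F (z + ε • q) < R := by
      rw [hF]
      simp only [Finset.sup'_lt_iff]
      exact hε
    exact absurd (hglob (z + ε • q)) (not_le.2 h3)
  obtain ⟨ι, hι, a, wt, hrange, haff, hwpos, hwsum, hwz⟩ := eq_pos_convex_span_of_mem_convexHull hzA
  have hcard : Fintype.card ι ≤ 3 := by
    have h1 := haff.card_le_finrank_succ
    have h2 : Module.finrank ℝ (vectorSpan ℝ (range a)) ≤ Module.finrank ℝ E :=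
      Submodule.finrank_le _
    have h3 : Module.finrank ℝ E = 2 := by simp [E]
    omega
  have haR : ∀ i, ‖a i - z‖ = R := by
    intro i
    have h1 : a i ∈ A := hrange ⟨i, rfl⟩
    rw [hA, Finset.mem_filter] at h1
    rw [← h1.2, dist_comm, dist_eq_norm]
  have haC : ∀ i, a i ∈ C := by
    intro i
    have h1 : a i ∈ A := hrange ⟨i, rfl⟩
    rw [hA, Finset.mem_filter] at h1
    exact h1.1
  have hb0 : ∑ i, wt i • (a i - z) = 0 := by
    simp only [smul_sub, Finset.sum_sub_distrib, hwz, ← Finset.sum_smul, hwsum, one_smul, sub_self]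
  classical
  have hinn : ∀ i j, (R ^ 2 - t ^ 2 / 2) + (if i = j then t ^ 2 / 2 else 0) ≤
      inner ℝ (a i - z) (a j - z) := by
    intro i j
    by_cases hij : i = j
    · subst hij
      rw [if_pos rfl, real_inner_self_eq_norm_sq, haR]
      linarith
    · rw [if_neg hij]
      have h1 := hdiam (a i) (haC i) (a j) (haC j)
      rw [dist_eq_norm] at h1
      have e : a i - a j = (a i - z) - (a j - z) := by abel
      have h2 : ‖a i - a j‖ ^ 2 ≤ t ^ 2 := pow_le_pow_left₀ (norm_nonneg _) h1 2
      rw [e, norm_sub_sq_real, haR, haR] at h2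
      linarith
  have hsq : (0:ℝ) = ∑ i, ∑ j, wt i * wt j * inner ℝ (a i - z) (a j - z) := by
    have h1 : inner ℝ (∑ i, wt i • (a i - z)) (∑ j, wt j • (a j - z)) = (0:ℝ) := by
      rw [hb0]; simp
    rw [← h1, sum_inner]
    apply Finset.sum_congr rfl
    intro i _
    rw [inner_sum]
    apply Finset.sum_congr rfl
    intro j _
    rw [inner_smul_left, inner_smul_right]
    simp only [conj_trivial]
    ring
  have hlow : ∑ i, ∑ j, wt i * wt j * ((R ^ 2 - t ^ 2 / 2) + (if i = j then t ^ 2 / 2 else 0)) ≤ 0 := by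
    refine le_trans ?_ hsq.symm.le
    apply Finset.sum_le_sum
    intro i _
    apply Finset.sum_le_sum
    intro j _
    exact mul_le_mul_of_nonneg_left (hinn i j) (mul_nonneg (hwpos i).le (hwpos j).le)
  have hcalc : ∑ i, ∑ j, wt i * wt j * ((R ^ 2 - t ^ 2 / 2) + (if i = j then t ^ 2 / 2 else 0)) =
      (R ^ 2 - t ^ 2 / 2) + t ^ 2 / 2 * ∑ i, wt i ^ 2 := by
    simp only [mul_add, Finset.sum_add_distrib, mul_ite, mul_zero, Finset.sum_ite_eq,
      Finset.mem_univ, if_true]
    congr 1
    · have : ∀ i, ∑ j, wt i * wt j * (R ^ 2 - t ^ 2 / 2) = wt i * (R ^ 2 - t ^ 2 / 2) := by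
        intro i
        rw [← Finset.sum_mul, ← Finset.mul_sum, hwsum, mul_one]
      rw [Finset.sum_congr rfl (fun i _ => this i), ← Finset.sum_mul, hwsum, one_mul]
    · rw [Finset.mul_sum]
      apply Finset.sum_congr rfl
      intro i _
      ring
  rw [hcalc] at hlow
  have hcs : (1:ℝ) ≤ 3 * ∑ i, wt i ^ 2 := by
    have h1 := sq_sum_le_card_mul_sum_sq (s := Finset.univ) (f := wt)
    rw [hwsum] at h1
    have h2 : ((Finset.univ : Finset ι).card : ℝ) ≤ 3 := by
      exact_mod_cast hcard
    have h3 : 0 ≤ ∑ i, wt i ^ 2 := Finset.sum_nonneg fun i _ => sq_nonneg _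
    nlinarith
  have hfinal : R ^ 2 ≤ t ^ 2 / 3 := by nlinarith [sq_pos_of_pos ht]
  refine ⟨z, fun c hc => (hFle z c hc).trans ?_⟩
  change R ≤ t / √3
  rw [le_div_iff₀ (by positivity)]
  apply le_of_sq_le_sq _ ht.le
  rw [mul_pow, Real.sq_sqrt (by norm_num)]
  linarith

lemma nontrivial_D {C : Finset E} (hC : C.Nonempty) {t : ℝ} (ht : 0 < t) (ht3 : t < √3)
    (hdiam : ∀ x ∈ C, ∀ y ∈ C, dist x y ≤ t) : (D C 1).Nontrivial := by
  obtain ⟨z, hz⟩ := jung hC ht hdiam
  have h3 : 0 < √3 := by positivity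
  have hlt : t / √3 < 1 := by rw [div_lt_one h3]; exact ht3
  refine ⟨z, mem_D.2 fun c hc => (hz c hc).trans hlt.le, z + (1 - t / √3) • u 0, ?_, ?_⟩
  · rw [mem_D]
    intro c hc
    rw [dist_eq_norm]
    have e : z + (1 - t / √3) • u 0 - c = (z - c) + (1 - t / √3) • u 0 := by abel
    rw [e]
    have h4 := hz c hc
    rw [dist_eq_norm] at h4
    calc _ ≤ ‖z - c‖ + ‖(1 - t / √3) • u 0‖ := norm_add_le _ _
      _ ≤ t / √3 + (1 - t / √3) := by
        rw [norm_smul, norm_u, Real.norm_of_nonneg (by linarith), mul_one]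
        linarith
      _ = 1 := by ring
  · intro h
    have h5 : (1 - t / √3) • u 0 = 0 := by
      have : z + 0 = z + (1 - t / √3) • u 0 := by rw [add_zero]; exact h
      exact (add_left_cancel this).symm
    have h6 : ‖(1 - t / √3) • u 0‖ = 1 - t / √3 := by
      rw [norm_smul, norm_u, Real.norm_of_nonneg (by linarith), mul_one]
    rw [h5, norm_zero] at h6
    linarith

end Pool.Agent.Fac573
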