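import Mathlib
import Pool.Agent.MP_fac573_co.Circ

set_option autoImplicit false

open Set Metric Real

namespace Pool.Agent.Fac573

lemma exists_max {C : Finset E} (hC : C.Nonempty) {r : ℝ} (hD : (D C r).Nonempty) (v : E) :
    ∃ p ∈ D C r, ∀ z ∈ D C r, inner ℝ z v ≤ inner ℝ p v := by
  have hcont : ContinuousOn (fun z : E => inner ℝ z v) (D C r) := by fun_prop
  obtain ⟨p, hp, hmax⟩ := (isCompact_D hC r).exists_isMaxOn hD hcont
  exact ⟨p, hp, fun z hz => hmax hz⟩

open Classical in
/-- The support point of `D C r` in direction `v`. -/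
noncomputable def P (C : Finset E) (r : ℝ) (v : E) : E :=
  if h : ∃ p ∈ D C r, ∀ z ∈ D C r, inner ℝ z v ≤ inner ℝ p v then h.choose else 0

section
variable {C : Finset E} (hC : C.Nonempty) {r : ℝ} (hr : 0 < r) (hD : (D C r).Nonempty)
include hC hD

lemma P_mem (v : E) : P C r v ∈ D C r := by
  have h := exists_max hC hD v
  rw [P, dif_pos h]
  exact h.choose_spec.1

lemma P_max (v : E) {z : E} (hz : z ∈ D C r) : inner ℝ z v ≤ inner ℝ (P C r v) v := by
  have h := exists_max hC hD v
  rw [P, dif_pos h]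
  exact h.choose_spec.2 z hz

include hr

lemma P_K {v : E} (hv : ‖v‖ = 1) {z : E} (hz : z ∈ D C r) :
    ‖z - P C r v‖ ^ 2 + 2 * r * inner ℝ (z - P C r v) v ≤ 0 :=
  key_K hr hv (P_mem hC hD v) (fun _ hz => P_max hC hD v hz) hz

lemma P_unique {v : E} (hv : ‖v‖ = 1) {q : E} (hq : q ∈ D C r)
    (hmax : ∀ z ∈ D C r, inner ℝ z v ≤ inner ℝ q v) : P C r v = q := by
  have h1 := P_K hC hr hD hv hq
  have h2 := hmax _ (P_mem hC hD v)
  rw [inner_sub_left] at h1
  have h3 : 0 ≤ 2 * r * (inner ℝ q v - inner ℝ (P C r v) v) := by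
    apply mul_nonneg (by positivity); linarith
  have h4 : ‖q - P C r v‖ ^ 2 ≤ 0 := by linarith
  have h5 : ‖q - P C r v‖ = 0 := by
    have := norm_nonneg (q - P C r v)
    nlinarith
  rw [norm_eq_zero, sub_eq_zero] at h5
  exact h5.symm

lemma P_lip {v v' : E} (hv : ‖v‖ = 1) (hv' : ‖v'‖ = 1) :
    ‖P C r v - P C r v'‖ ≤ r * ‖v - v'‖ := by
  have h1 := P_K hC hr hD hv (P_mem hC hD v')
  have h2 := P_K hC hr hD hv' (P_mem hC hD v)
  set a := P C r v
  set b := P C r v'
  have e1 : ‖b - a‖ = ‖a - b‖ := norm_sub_rev _ _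
  rw [e1] at h1
  have e2 : inner ℝ (b - a) v = - inner ℝ (a - b) v := by
    rw [← inner_neg_left, neg_sub]
  rw [e2] at h1
  have h3 : ‖a - b‖ ^ 2 ≤ r * inner ℝ (a - b) (v - v') := by
    rw [inner_sub_right]
    nlinarith
  have h4 : inner ℝ (a - b) (v - v') ≤ ‖a - b‖ * ‖v - v'‖ := real_inner_le_norm _ _
  have h5 : ‖a - b‖ ^ 2 ≤ ‖a - b‖ * (r * ‖v - v'‖) := by
    calc ‖a - b‖ ^ 2 ≤ r * inner ℝ (a - b) (v - v') := h3
      _ ≤ r * (‖a - b‖ * ‖v - v'‖) := mul_le_mul_of_nonneg_left h4 hr.le
      _ = _ := by ring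
  by_contra hcon
  push Not at hcon
  have h6 : 0 < ‖a - b‖ := lt_of_le_of_lt (by positivity) hcon
  nlinarith

lemma continuous_P : Continuous fun θ => P C r (u θ) := by
  have : LipschitzWith (Real.toNNReal r) fun θ => P C r (u θ) := by
    apply LipschitzWith.of_dist_le_mul
    intro a b
    rw [dist_eq_norm, Real.coe_toNNReal _ hr.le, Real.dist_eq]
    calc _ ≤ r * ‖u a - u b‖ := P_lip hC hr hD (norm_u a) (norm_u b)
      _ ≤ r * |a - b| := mul_le_mul_of_nonneg_left (lip_u b a) hr.le
  exact this.continuous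

end

/-- Directions whose support point lies on an arc. -/
def S (C : Finset E) (r : ℝ) : Set ℝ := {θ | ∃ c ∈ C, c + r • u θ ∈ D C r}

/-- Exceptional directions. -/
def Exc (C : Finset E) (r : ℝ) : Set ℝ :=
  {θ | ∃ c ∈ C, ∃ c' ∈ C, c ≠ c' ∧ dist (c + r • u θ) c' = r}

/-- Candidate vertices. -/
def V (C : Finset E) (r : ℝ) : Set E :=
  {z | ∃ c ∈ C, ∃ c' ∈ C, c ≠ c' ∧ dist z c = r ∧ dist z c' = r}

lemma finite_two_circles {c c' : E} (h : c ≠ c') (r : ℝ) :
    {z : E | dist z c = r ∧ dist z c' = r}.Finite := by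
  by_cases hex : ∃ p₁ p₂ : E, p₁ ≠ p₂ ∧ (dist p₁ c = r ∧ dist p₁ c' = r) ∧
      (dist p₂ c = r ∧ dist p₂ c' = r)
  · obtain ⟨p₁, p₂, hne, h1, h2⟩ := hex
    apply Set.Finite.subset (Set.toFinite {p₁, p₂})
    intro z hz
    have hfr : Module.finrank ℝ E = 2 := by simp [E]
    have := EuclideanGeometry.eq_of_dist_eq_of_dist_eq_of_finrank_eq_two hfr h hne
      h1.1 h2.1 hz.1 h1.2 h2.2 hz.2
    simpa using this
  · apply Set.Subsingleton.finite
    intro a ha b hb
    by_contra hab
    exact hex ⟨a, b, hab, ha, hb⟩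

lemma finite_V (C : Finset E) (r : ℝ) : (V C r).Finite := by
  have : V C r ⊆ ⋃ c ∈ C, ⋃ c' ∈ C, {z | c ≠ c' ∧ (dist z c = r ∧ dist z c' = r)} := by
    rintro z ⟨c, hc, c', hc', h, h1, h2⟩
    simp only [mem_iUnion]
    exact ⟨c, hc, c', hc', h, h1, h2⟩
  refine Set.Finite.subset ?_ this
  apply Set.Finite.biUnion C.finite_toSet
  intro c _
  apply Set.Finite.biUnion C.finite_toSet
  intro c' _
  by_cases h : c = c'
  · simp [h]
  · simpa [h] using finite_two_circles h r

lemma countable_fiber (v : E) : {θ : ℝ | u θ = v}.Countable := by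
  by_cases h : ∃ θ₀, u θ₀ = v
  · obtain ⟨θ₀, h0⟩ := h
    apply Set.Countable.mono (s₂ := Set.range fun k : ℤ => θ₀ + k * (2 * π))
    · intro θ hθ
      have hθ' : u θ = u θ₀ := by rw [h0]; exact hθ
      have h1 : cos (θ - θ₀) = 1 := by
        rw [← inner_u_u, hθ', real_inner_self_eq_norm_sq, norm_u]; norm_num
      rw [Real.cos_eq_one_iff] at h1
      obtain ⟨n, hn⟩ := h1
      exact ⟨n, by simp only; linarith⟩
    · exact Set.countable_range _
  · have : {θ : ℝ | u θ = v} = ∅ := by
      ext θ; simp only [mem_ofPred_eq, mem_empty_iff_false, iff_false]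
      exact fun h' => h ⟨θ, h'⟩
    rw [this]; exact Set.countable_empty

lemma countable_Exc (C : Finset E) {r : ℝ} (hr : 0 < r) : (Exc C r).Countable := by
  have : Exc C r ⊆ ⋃ c ∈ C, ⋃ z ∈ V C r, {θ | u θ = r⁻¹ • (z - c)} := by
    rintro θ ⟨c, hc, c', hc', hne, h⟩
    simp only [mem_iUnion]
    refine ⟨c, hc, c + r • u θ, ?_, ?_⟩
    · refine ⟨c, hc, c', hc', hne, ?_, h⟩
      rw [dist_eq_norm]; simp [norm_smul, norm_u, abs_of_pos hr]
    · simp only [mem_ofPred_eq, add_sub_cancel_left]
      rw [smul_smul, inv_mul_cancel₀ hr.ne', one_smul]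
  refine Set.Countable.mono this ?_
  apply Set.Countable.biUnion C.finite_toSet.countable
  intro c _
  apply Set.Countable.biUnion (finite_V C r).countable
  intro z _
  exact countable_fiber _

lemma isClosed_S (C : Finset E) (r : ℝ) : IsClosed (S C r) := by
  have : S C r = ⋃ c ∈ C, (fun θ => c + r • u θ) ⁻¹' (D C r) := by
    ext θ; simp [S]
  rw [this]
  apply Set.Finite.isClosed_biUnion C.finite_toSet
  intro c _
  apply IsClosed.preimage _ (isClosed_D C r)
  have := continuous_u
  fun_prop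

section
variable {C : Finset E} (hC : C.Nonempty) {r : ℝ} (hr : 0 < r) (hD : (D C r).Nonempty)
include hC hr hD

lemma P_eq_of_mem_S {c : E} (hc : c ∈ C) {θ : ℝ} (h : c + r • u θ ∈ D C r) :
    P C r (u θ) = c + r • u θ := by
  apply P_unique hC hr hD (norm_u θ) h
  intro z hz
  have h1 : ‖z - c‖ ≤ r := by
    have := mem_D.1 hz c hc; rwa [dist_eq_norm] at this
  have h2 : inner ℝ (z - c) (u θ) ≤ r := by
    calc inner ℝ (z - c) (u θ) ≤ ‖z - c‖ * ‖u θ‖ := real_inner_le_norm _ _
      _ ≤ r := by rw [norm_u, mul_one]; exact h1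
  rw [inner_sub_left] at h2
  rw [inner_add_left, inner_smul_left, real_inner_self_eq_norm_sq, norm_u]
  simp only [conj_trivial]
  linarith

lemma P_mem_V {θ : ℝ} (h : θ ∉ S C r) : P C r (u θ) ∈ V C r := by
  set p := P C r (u θ) with hp
  have hpD : p ∈ D C r := P_mem hC hD _
  -- an active constraint
  by_cases hact : ∃ c ∈ C, dist p c = r
  · obtain ⟨c, hc, hcr⟩ := hact
    by_contra hV
    have hother : ∀ c' ∈ C, c ≠ c' → dist p c' < r := by
      intro c' hc' hne
      apply lt_of_le_of_ne (mem_D.1 hpD c' hc')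
      intro h'
      exact hV ⟨c, hc, c', hc', hne, hcr, h'⟩
    have hne : p ≠ c + r • u θ := by
      intro h'
      apply h
      exact ⟨c, hc, by rw [← h']; exact hpD⟩
    -- the improving direction
    set q := r • u θ - (p - c) with hq
    have hpc : ‖p - c‖ = r := by rw [← dist_eq_norm]; exact hcr
    have hlt : inner ℝ (p - c) (u θ) < r := by
      have h1 : inner ℝ (p - c) (u θ) ≤ ‖p - c‖ * ‖u θ‖ := real_inner_le_norm _ _
      rw [hpc, norm_u, mul_one] at h1
      apply lt_of_le_of_ne h1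
      intro h2
      apply hne
      have h3 : ‖(p - c) - r • u θ‖ ^ 2 = 0 := by
        rw [norm_sub_sq_real, inner_smul_right, h2, norm_smul, norm_u, hpc]
        simp [abs_of_pos hr]
        ring
      have h4 : (p - c) - r • u θ = 0 := by
        rw [← norm_eq_zero]; exact pow_eq_zero_iff (two_ne_zero) |>.1 h3
      have : p = c + r • u θ := by
        rw [sub_eq_zero] at h4
        rw [← h4]; abel
      exact this
    have hqu : 0 < inner ℝ q (u θ) := by
      rw [hq, inner_sub_left, inner_smul_left, real_inner_self_eq_norm_sq, norm_u]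
      simp only [conj_trivial]; linarith
    have hqp : inner ℝ (p - c) q < 0 := by
      rw [hq, inner_sub_right, inner_smul_right, real_inner_self_eq_norm_sq, hpc]
      nlinarith
    -- small step
    have hev : ∀ᶠ ε : ℝ in nhdsWithin 0 (Ioi 0), p + ε • q ∈ D C r := by
      have h1 : ∀ c' ∈ C, ∀ᶠ ε : ℝ in nhdsWithin 0 (Ioi 0), dist (p + ε • q) c' ≤ r := by
        intro c' hc'
        by_cases hcc : c = c'
        · subst hcc
          have hlin : ∀ᶠ ε : ℝ in nhdsWithin 0 (Ioi 0), 2 * inner ℝ (p - c) q + ε * ‖q‖ ^ 2 < 0 := by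
            have ht : Filter.Tendsto (fun ε : ℝ => 2 * inner ℝ (p - c) q + ε * ‖q‖ ^ 2)
                (nhdsWithin 0 (Ioi 0)) (nhds (2 * inner ℝ (p - c) q + 0 * ‖q‖ ^ 2)) := by
              apply tendsto_nhdsWithin_of_tendsto_nhds
              apply Continuous.tendsto
              fun_prop
            apply ht.eventually_lt_const
            linarith
          filter_upwards [hlin, self_mem_nhdsWithin] with ε hε hε0
          have hε0 : 0 < ε := hε0
          rw [dist_eq_norm]
          have e : p + ε • q - c = (p - c) + ε • q := by abel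
          rw [e]
          apply le_of_sq_le_sq _ hr.le
          rw [norm_add_sq_real, inner_smul_right, hpc, norm_smul, mul_pow, Real.norm_eq_abs, sq_abs]
          nlinarith
        · have hlt' := hother c' hc' hcc
          have ht : Filter.Tendsto (fun ε : ℝ => dist (p + ε • q) c')
              (nhdsWithin 0 (Ioi 0)) (nhds (dist (p + (0:ℝ) • q) c')) := by
            apply tendsto_nhdsWithin_of_tendsto_nhds
            apply Continuous.tendsto
            fun_prop
          have h2 : dist (p + (0:ℝ) • q) c' < r := by simpa using hlt'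
          filter_upwards [ht.eventually_lt_const h2] with ε hε
          exact hε.le
      have h2 := (Filter.eventually_all_finset C).2 h1
      filter_upwards [h2] with ε hε
      exact mem_D.2 hε
    obtain ⟨ε, hε, hε0⟩ := (hev.and self_mem_nhdsWithin).exists
    have hε0 : 0 < ε := hε0
    have h5 := P_max hC hD (u θ) hε
    rw [← hp, inner_add_left, inner_smul_left] at h5
    simp only [conj_trivial] at h5
    nlinarith
  · -- no active constraint
    exfalso
    have hlt : ∀ c ∈ C, dist p c < r := by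
      intro c hc
      apply lt_of_le_of_ne (mem_D.1 hpD c hc)
      intro h'; exact hact ⟨c, hc, h'⟩
    have hev : ∀ᶠ ε : ℝ in nhdsWithin 0 (Ioi 0), p + ε • u θ ∈ D C r := by
      have h1 : ∀ c' ∈ C, ∀ᶠ ε : ℝ in nhdsWithin 0 (Ioi 0), dist (p + ε • u θ) c' ≤ r := by
        intro c' hc'
        have hlt' := hlt c' hc'
        have ht : Filter.Tendsto (fun ε : ℝ => dist (p + ε • u θ) c')
            (nhdsWithin 0 (Ioi 0)) (nhds (dist (p + (0:ℝ) • u θ) c')) := by
          apply tendsto_nhdsWithin_of_tendsto_nhds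
          apply Continuous.tendsto
          fun_prop
        have h2 : dist (p + (0:ℝ) • u θ) c' < r := by simpa using hlt'
        filter_upwards [ht.eventually_lt_const h2] with ε hε
        exact hε.le
      have h2 := (Filter.eventually_all_finset C).2 h1
      filter_upwards [h2] with ε hε
      exact mem_D.2 hε
    obtain ⟨ε, hε, hε0⟩ := (hev.and self_mem_nhdsWithin).exists
    have hε0 : 0 < ε := hε0
    have h5 := P_max hC hD (u θ) hε
    rw [← hp, inner_add_left, inner_smul_left, real_inner_self_eq_norm_sq, norm_u] at h5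
    simp only [conj_trivial] at h5
    nlinarith

/-- Away from `S` the support point is locally constant. -/
lemma eventually_const {θ : ℝ} (h : θ ∉ S C r) :
    ∀ᶠ φ in nhds θ, P C r (u φ) = P C r (u θ) := by
  have hcont := continuous_P hC hr hD
  have hfin : (V C r \ {P C r (u θ)}).Finite := (finite_V C r).sdiff
  have h1 : ∀ᶠ φ in nhds θ, P C r (u φ) ∉ V C r \ {P C r (u θ)} := by
    have hopen : IsOpen (V C r \ {P C r (u θ)})ᶜ := hfin.isClosed.isOpen_compl
    have hmem : P C r (u θ) ∈ (V C r \ {P C r (u θ)})ᶜ := by simp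
    exact hcont.continuousAt.eventually (hopen.mem_nhds hmem)
  have h2 : ∀ᶠ φ in nhds θ, φ ∉ S C r := (isClosed_S C r).isOpen_compl.mem_nhds h
  filter_upwards [h1, h2] with φ h3 h4
  have h5 := P_mem_V hC hr hD h4
  by_contra hne
  exact h3 ⟨h5, hne⟩

/-- At non-exceptional points of `S` the support point moves along a circle. -/
lemma eventually_arc {θ : ℝ} {c : E} (hc : c ∈ C) (hθ : c + r • u θ ∈ D C r)
    (hE : θ ∉ Exc C r) : ∀ᶠ φ in nhds θ, P C r (u φ) = c + r • u φ := by
  have h1 : ∀ c' ∈ C, ∀ᶠ φ in nhds θ, dist (c + r • u φ) c' ≤ r := by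
    intro c' hc'
    by_cases hcc : c = c'
    · subst hcc
      filter_upwards with φ
      rw [dist_eq_norm]; simp [norm_smul, norm_u, abs_of_pos hr]
    · have hlt : dist (c + r • u θ) c' < r := by
        apply lt_of_le_of_ne (mem_D.1 hθ c' hc')
        intro h'; exact hE ⟨c, hc, c', hc', hcc, h'⟩
      have ht : Continuous (fun φ : ℝ => dist (c + r • u φ) c') := by
        have := continuous_u
        fun_prop
      filter_upwards [ht.continuousAt.eventually_lt_const hlt] with φ hφ
      exact hφ.le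
  have h2 := (Filter.eventually_all_finset C).2 h1
  filter_upwards [h2] with φ hφ
  exact P_eq_of_mem_S hC hr hD hc (mem_D.2 hφ)

open Classical in
lemma hasDerivAt_P {θ : ℝ} (hE : θ ∉ Exc C r) :
    HasDerivAt (fun φ => P C r (u φ)) (if θ ∈ S C r then r • w θ else 0) θ := by
  by_cases h : θ ∈ S C r
  · rw [if_pos h]
    obtain ⟨c, hc, hcD⟩ := h
    have h1 : HasDerivAt (fun φ => c + r • u φ) (r • w θ) θ := by
      have := ((hasDerivAt_u θ).const_smul r).const_add c
      exact this
    exact h1.congr_of_eventuallyEq (eventually_arc hC hr hD hc hcD hE)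
  · rw [if_neg h]
    exact (hasDerivAt_const θ (P C r (u θ))).congr_of_eventuallyEq
      (eventually_const hC hr hD h)

end

end Pool.Agent.Fac573
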