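import Mathlib
import Pool.Agent.MP_fac573_co.Supp

set_option autoImplicit false

open Set Metric Real MeasureTheory

namespace Pool.Agent.Fac573

lemma measurableSet_S (C : Finset E) (r : ℝ) : MeasurableSet (S C r) :=
  (isClosed_S C r).measurableSet

lemma intervalIntegrable_indicator {G : Set ℝ} (hG : MeasurableSet G) {f : ℝ → ℝ}
    (hf : Continuous f) (a b : ℝ) : IntervalIntegrable (G.indicator f) volume a b := by
  have h := hf.intervalIntegrable (μ := volume) a b
  rw [intervalIntegrable_iff] at h ⊢
  exact h.indicator hG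

lemma integral_indicator_const' {G : Set ℝ} (hG : MeasurableSet G) (r : ℝ) {a b : ℝ} (hab : a ≤ b) :
    ∫ θ in a..b, G.indicator (fun _ => r) θ = r * volume.real (G ∩ Ioc a b) := by
  rw [intervalIntegral.integral_of_le hab, MeasureTheory.integral_indicator hG,
    MeasureTheory.setIntegral_const, smul_eq_mul, mul_comm]
  rw [measureReal_restrict_apply hG]

section
variable {C : Finset E} (hC : C.Nonempty) {r : ℝ} (hr : 0 < r) (hD : (D C r).Nonempty)
include hC hr hD

/-- Component of the displacement of the support point. -/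
lemma integral_disp (m : ℝ) (a b : ℝ) :
    ∫ θ in a..b, (S C r).indicator (fun θ => r * cos (θ - m)) θ =
      inner ℝ (P C r (u b) - P C r (u a)) (w m) := by
  rw [inner_sub_left]
  apply MeasureTheory.integral_eq_of_hasDerivAt_off_countable
    (fun φ => inner ℝ (P C r (u φ)) (w m)) _ (countable_Exc C hr)
  · apply Continuous.continuousOn
    have := continuous_P hC hr hD
    fun_prop
  · rintro θ ⟨-, hE⟩
    have h1 := hasDerivAt_P hC hr hD hE
    have h2 := h1.inner ℝ (hasDerivAt_const θ (w m))
    simp only [inner_zero_right, zero_add] at h2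
    refine h2.congr_deriv ?_
    symm
    by_cases h : θ ∈ S C r
    · rw [indicator_of_mem h, if_pos h, inner_smul_left, inner_w_w]; simp
    · rw [indicator_of_notMem h, if_neg h]; simp
  · exact intervalIntegrable_indicator (measurableSet_S C r) (by fun_prop) a b

/-- The integral of the support function. -/
lemma integral_H : ∫ θ in (0:ℝ)..(2 * π), inner ℝ (P C r (u θ)) (u θ) =
    r * volume.real (S C r ∩ Ioc 0 (2 * π)) := by
  have hcP := continuous_P hC hr hD
  have hcu := continuous_u
  have hcw := continuous_w
  have hH : Continuous fun θ => inner ℝ (P C r (u θ)) (u θ) := by fun_prop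
  have h1 : ∫ θ in (0:ℝ)..(2 * π), ((S C r).indicator (fun _ => r) θ -
      inner ℝ (P C r (u θ)) (u θ)) =
      inner ℝ (P C r (u (2 * π))) (w (2 * π)) - inner ℝ (P C r (u 0)) (w 0) := by
    apply MeasureTheory.integral_eq_of_hasDerivAt_off_countable
      (fun φ => inner ℝ (P C r (u φ)) (w φ)) _ (countable_Exc C hr)
    · apply Continuous.continuousOn
      fun_prop
    · rintro θ ⟨-, hE⟩
      have h1 := hasDerivAt_P hC hr hD hE
      have h2 := h1.inner ℝ (hasDerivAt_w θ)
      refine h2.congr_deriv ?_
      symm
      by_cases h : θ ∈ S C r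
      · rw [indicator_of_mem h, if_pos h, inner_smul_left, inner_w_w]; simp; ring
      · rw [indicator_of_notMem h, if_neg h]; simp
    · exact (intervalIntegrable_indicator (measurableSet_S C r) (by fun_prop) _ _).sub
        (hH.intervalIntegrable _ _)
  have e1 : u (2 * π) = u 0 := by have := u_add_two_pi 0; simpa using this
  have e2 : w (2 * π) = w 0 := by have := w_add_two_pi 0; simpa using this
  rw [e1, e2, sub_self, intervalIntegral.integral_sub
    (intervalIntegrable_indicator (measurableSet_S C r) (by fun_prop) _ _)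
    (hH.intervalIntegrable _ _), integral_indicator_const' (measurableSet_S C r) r
    (by positivity)] at h1
  linarith

/-- Width at least `r`. -/
lemma width_ge (hdiam : ∀ x ∈ C, ∀ y ∈ C, dist x y ≤ r) (θ : ℝ) :
    r ≤ inner ℝ (P C r (u θ)) (u θ) + inner ℝ (P C r (u (θ + π))) (u (θ + π)) := by
  have h1 : P C r (u θ) - r • u θ ∈ D C r := by
    rw [mem_D]
    intro c hc
    have hcD : c ∈ D C r := mem_D.2 fun c' hc' => hdiam c hc c' hc'
    have h2 := P_K hC hr hD (norm_u θ) hcD
    rw [dist_eq_norm]
    apply le_of_sq_le_sq _ hr.le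
    have e : P C r (u θ) - r • u θ - c = - ((c - P C r (u θ)) + r • u θ) := by abel
    rw [e, norm_neg, norm_add_sq_real, inner_smul_right, norm_smul, norm_u,
      Real.norm_eq_abs, mul_one, sq_abs]
    linarith
  have h3 := P_max hC hD (u (θ + π)) h1
  rw [u_add_pi, inner_neg_right, inner_sub_left, inner_smul_left,
    real_inner_self_eq_norm_sq, norm_u] at h3
  simp only [conj_trivial] at h3
  rw [u_add_pi]
  linarith

lemma vol_S_ge (hdiam : ∀ x ∈ C, ∀ y ∈ C, dist x y ≤ r) :
    π ≤ volume.real (S C r ∩ Ioc 0 (2 * π)) := by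
  have hcP := continuous_P hC hr hD
  have hcu := continuous_u
  have hH : Continuous fun θ => inner ℝ (P C r (u θ)) (u θ) := by fun_prop
  have h1 := integral_H hC hr hD
  have h2 : ∫ θ in (0:ℝ)..(2 * π), inner ℝ (P C r (u θ)) (u θ) =
      ∫ θ in (0:ℝ)..π, (inner ℝ (P C r (u θ)) (u θ) +
        inner ℝ (P C r (u (θ + π))) (u (θ + π))) := by
    have hH2 : Continuous fun θ => inner ℝ (P C r (u (θ + π))) (u (θ + π)) :=
      hH.comp (by fun_prop : Continuous fun θ : ℝ => θ + π)
    rw [intervalIntegral.integral_add (hH.intervalIntegrable _ _) (hH2.intervalIntegrable _ _)]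
    rw [intervalIntegral.integral_comp_add_right (fun θ => inner ℝ (P C r (u θ)) (u θ)) π]
    rw [zero_add, show π + π = 2 * π by ring]
    rw [intervalIntegral.integral_add_adjacent_intervals (hH.intervalIntegrable _ _)
      (hH.intervalIntegrable _ _)]
  have h3 : r * π ≤ ∫ θ in (0:ℝ)..π, (inner ℝ (P C r (u θ)) (u θ) +
        inner ℝ (P C r (u (θ + π))) (u (θ + π))) := by
    have hH2 : Continuous fun θ => inner ℝ (P C r (u (θ + π))) (u (θ + π)) :=
      hH.comp (by fun_prop : Continuous fun θ : ℝ => θ + π)
    have h4 : ∫ θ in (0:ℝ)..π, r ≤ ∫ θ in (0:ℝ)..π, (inner ℝ (P C r (u θ)) (u θ) +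
        inner ℝ (P C r (u (θ + π))) (u (θ + π))) := by
      apply intervalIntegral.integral_mono_on pi_pos.le
      · simp
      · exact (hH.add hH2).intervalIntegrable _ _
      · intro θ _
        exact width_ge hC hr hD hdiam θ
    rw [intervalIntegral.integral_const] at h4
    simp at h4
    linarith
  rw [h1] at h2
  rw [← h2] at h3
  exact le_of_mul_le_mul_left h3 hr

end

lemma vol_compl {G : Set ℝ} (hG : MeasurableSet G) {a b : ℝ} (hab : a ≤ b) :
    volume.real (Gᶜ ∩ Ioc a b) = (b - a) - volume.real (G ∩ Ioc a b) := by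
  have h1 : volume.real (Ioc a b ∩ G) + volume.real (Ioc a b \ G) = volume.real (Ioc a b) :=
    measureReal_inter_add_sdiff (μ := volume) (s := Ioc a b) hG (by simp)
  have h2 : volume.real (Ioc a b) = b - a := by
    rw [measureReal_def, Real.volume_Ioc, ENNReal.toReal_ofReal (by linarith)]
  have e1 : Gᶜ ∩ Ioc a b = Ioc a b \ G := by
    ext x; simp [and_comm]
  rw [e1, inter_comm G]
  linarith

/-- Bathtub inequality. -/
lemma bathtub {G : Set ℝ} (hG : MeasurableSet G) {a b : ℝ} (hab : a ≤ b) (hba : b - a ≤ π) :
    ∫ θ in a..b, G.indicator (fun θ => cos (θ - (a + b) / 2)) θ ≤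
      2 * sin (volume.real (G ∩ Ioc a b) / 2) := by
  set m := (a + b) / 2 with hm
  set ε := volume.real (G ∩ Ioc a b) with hε
  have hε0 : 0 ≤ ε := measureReal_nonneg
  have hε1 : ε ≤ b - a := by
    have h2 : volume.real (Ioc a b) = b - a := by
      rw [measureReal_def, Real.volume_Ioc, ENNReal.toReal_ofReal (by linarith)]
    rw [← h2]
    apply measureReal_mono inter_subset_right (by simp)
  set κ := cos (ε / 2) with hκ
  set f : ℝ → ℝ := fun θ => cos (θ - m) - κ with hf
  have hfc : Continuous f := by fun_prop
  set I : Set ℝ := Ioc (m - ε / 2) (m + ε / 2) with hI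
  have hIab : I ⊆ Ioc a b := by
    intro x hx
    rw [hI, mem_Ioc] at hx
    constructor <;> linarith [hx.1, hx.2]
  have hle : ∫ θ in a..b, G.indicator f θ ≤ ∫ θ in a..b, I.indicator f θ := by
    apply intervalIntegral.integral_mono_on_of_le_Ioo hab
    · exact intervalIntegrable_indicator hG hfc _ _
    · exact intervalIntegrable_indicator measurableSet_Ioc hfc _ _
    · intro θ hθ
      by_cases hθI : θ ∈ I
      · have hf0 : 0 ≤ f θ := by
          rw [hf]
          simp only
          have : |θ - m| ≤ ε / 2 := by
            rw [abs_le]; constructor <;> linarith [hθI.1, hθI.2]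
          rw [hκ, ← cos_abs (θ - m)]
          have := Real.cos_le_cos_of_nonneg_of_le_pi (abs_nonneg _) (by linarith) this
          linarith
        rw [indicator_of_mem hθI]
        by_cases hG' : θ ∈ G
        · rw [indicator_of_mem hG']
        · rw [indicator_of_notMem hG']; exact hf0
      · have hf0 : f θ ≤ 0 := by
          rw [hf]
          simp only
          have : ε / 2 ≤ |θ - m| := by
            by_contra hcon
            push Not at hcon
            rw [abs_lt] at hcon
            apply hθI
            constructor <;> linarith [hcon.1, hcon.2]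
          have h3 : |θ - m| ≤ π := by
            rw [abs_le]; constructor <;> linarith [hθ.1, hθ.2, pi_pos]
          rw [hκ, ← cos_abs (θ - m)]
          have := Real.cos_le_cos_of_nonneg_of_le_pi (by positivity) h3 this
          linarith
        rw [indicator_of_notMem hθI]
        by_cases hG' : θ ∈ G
        · rw [indicator_of_mem hG']; exact hf0
        · rw [indicator_of_notMem hG']
  have hIint : ∫ θ in a..b, I.indicator f θ = ∫ θ in (m - ε / 2)..(m + ε / 2), f θ := by
    rw [intervalIntegral.integral_of_le hab, intervalIntegral.integral_of_le (by linarith),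
      MeasureTheory.integral_indicator measurableSet_Ioc, Measure.restrict_restrict measurableSet_Ioc,
      inter_eq_left.2 hIab]
  have hval : ∫ θ in (m - ε / 2)..(m + ε / 2), f θ = 2 * sin (ε / 2) - ε * κ := by
    rw [hf, intervalIntegral.integral_sub (by apply Continuous.intervalIntegrable; fun_prop)
      (by apply Continuous.intervalIntegrable; fun_prop)]
    rw [intervalIntegral.integral_comp_sub_right (fun x => cos x) m, integral_cos]
    simp
    ring
  have hsplit : ∫ θ in a..b, G.indicator f θ =
      (∫ θ in a..b, G.indicator (fun θ => cos (θ - m)) θ) - κ * ε := by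
    rw [hε, ← integral_indicator_const' hG κ hab, ← intervalIntegral.integral_sub]
    · congr 1
      ext θ
      by_cases h : θ ∈ G
      · simp [h, hf]
      · simp [h]
    · exact intervalIntegrable_indicator hG (by fun_prop) _ _
    · exact intervalIntegrable_indicator hG (by fun_prop) _ _
  rw [hIint, hval, hsplit] at hle
  linarith

end Pool.Agent.Fac573
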