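import Mathlib

set_option autoImplicit false

open Set Real

namespace Pool.Agent.Fac573

lemma aux_n {κ : ℝ} (hκ : 1 ≤ κ) {y : ℝ} (hy0 : 0 ≤ y) (hy : y ≤ π / 6) (hκy : κ * (π / 6) ≤ π / 2) :
    κ * cos (κ * y) * sin y - sin (κ * y) * cos y ≤ 0 := by
  set n : ℝ → ℝ := fun y => κ * cos (κ * y) * sin y - sin (κ * y) * cos y with hn
  have hder : ∀ x, HasDerivAt n ((1 - κ ^ 2) * sin (κ * x) * sin x) x := by
    intro x
    have h1 : HasDerivAt (fun y => κ * y) κ x := by
      simpa using (hasDerivAt_id x).const_mul κ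
    have h2 : HasDerivAt (fun y => cos (κ * y)) (-sin (κ * x) * κ) x := h1.cos
    have h3 : HasDerivAt (fun y => sin (κ * y)) (cos (κ * x) * κ) x := h1.sin
    have h4 := ((h2.const_mul κ).mul (hasDerivAt_sin x)).sub (h3.mul (hasDerivAt_cos x))
    refine h4.congr_deriv ?_
    ring
  have hanti : AntitoneOn n (Icc 0 (π / 6)) := by
    apply antitoneOn_of_deriv_nonpos (convex_Icc _ _)
    · exact fun x _ => (hder x).continuousAt.continuousWithinAt
    · exact fun x _ => (hder x).differentiableAt.differentiableWithinAt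
    · intro x hx
      rw [interior_Icc] at hx
      rw [(hder x).deriv]
      have hs1 : 0 ≤ sin x := sin_nonneg_of_nonneg_of_le_pi hx.1.le (by linarith [hx.2, pi_pos])
      have hs2 : 0 ≤ sin (κ * x) := by
        apply sin_nonneg_of_nonneg_of_le_pi
        · have := hx.1; positivity
        · have : κ * x ≤ κ * (π / 6) := mul_le_mul_of_nonneg_left hx.2.le (by linarith)
          linarith [pi_pos]
      have h3 : (1 - κ ^ 2) ≤ 0 := by nlinarith
      have h4 : (1 - κ ^ 2) * sin (κ * x) ≤ 0 := mul_nonpos_of_nonpos_of_nonneg h3 hs2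
      exact mul_nonpos_of_nonpos_of_nonneg h4 hs1
  have h0 : n 0 = 0 := by simp [hn]
  have := hanti ⟨le_refl _, by positivity⟩ ⟨hy0, hy⟩ hy0
  rw [h0] at this
  exact this

lemma numeric1 {A y : ℝ} (hA1 : π / 6 ≤ A) (hA2 : A ≤ π / 2) (hy0 : 0 ≤ y) (hy : y ≤ π / 6) :
    2 * sin A * sin y ≤ sin (6 * A * y / π) := by
  rcases eq_or_lt_of_le hy0 with h0 | h0
  · simp [← h0]
  set κ := 6 * A / π with hκ
  have hκ1 : 1 ≤ κ := by
    rw [hκ, le_div_iff₀ pi_pos]; linarith
  have hκA : κ * (π / 6) = A := by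
    rw [hκ]; field_simp
  set k : ℝ → ℝ := fun y => sin (κ * y) / sin y with hk
  have hspos : ∀ x, 0 < x → x ≤ π / 6 → 0 < sin x := fun x hx0 hx1 =>
    sin_pos_of_pos_of_lt_pi hx0 (by linarith [pi_pos])
  have hder : ∀ x, 0 < x → x ≤ π / 6 → HasDerivAt k
      ((cos (κ * x) * κ * sin x - sin (κ * x) * cos x) / (sin x) ^ 2) x := by
    intro x hx0 hx1
    have h1 : HasDerivAt (fun y => κ * y) κ x := by
      simpa using (hasDerivAt_id x).const_mul κ
    have h3 : HasDerivAt (fun y => sin (κ * y)) (cos (κ * x) * κ) x := h1.sin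
    exact h3.div (hasDerivAt_sin x) (hspos x hx0 hx1).ne'
  have hanti : AntitoneOn k (Icc y (π / 6)) := by
    apply antitoneOn_of_deriv_nonpos (convex_Icc _ _)
    · exact fun x hx => (hder x (by linarith [hx.1]) hx.2).continuousAt.continuousWithinAt
    · intro x hx
      rw [interior_Icc] at hx
      exact (hder x (by linarith [hx.1]) hx.2.le).differentiableAt.differentiableWithinAt
    · intro x hx
      rw [interior_Icc] at hx
      rw [(hder x (by linarith [hx.1]) hx.2.le).deriv]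
      apply div_nonpos_of_nonpos_of_nonneg _ (sq_nonneg _)
      have := aux_n hκ1 (y := x) (by linarith [hx.1]) hx.2.le (by rw [hκA]; exact hA2)
      linarith
  have h1 := hanti (left_mem_Icc.2 hy) (right_mem_Icc.2 hy) hy
  simp only [hk] at h1
  rw [hκA, sin_pi_div_six, le_div_iff₀ (hspos y h0 hy)] at h1
  have e : 6 * A * y / π = κ * y := by rw [hκ]; ring
  rw [e]
  linarith

lemma numeric2 {τ β ε : ℝ} (hτ1 : 1 ≤ τ) (hτ2 : τ ≤ 2) (hβ0 : 0 ≤ β) (hβ : β ≤ π / 2)
    (hε0 : 0 ≤ ε) (h1 : sin β ≤ τ / 2) (h2 : sin β ≤ τ * sin (ε / 2)) :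
    2 * β ≤ 6 / π * arcsin (τ / 2) * ε := by
  set A := arcsin (τ / 2) with hA
  have hsA : sin A = τ / 2 := sin_arcsin (by linarith) (by linarith)
  have hA2 : A ≤ π / 2 := arcsin_le_pi_div_two _
  have hA1 : π / 6 ≤ A := by
    have : arcsin (1 / 2) = π / 6 := by
      rw [← sin_pi_div_six]
      apply arcsin_sin <;> linarith [pi_pos]
    rw [← this]
    exact monotone_arcsin (by linarith)
  have hβA : β ≤ A := by
    rw [← arcsin_sin (x := β) (by linarith [pi_pos]) hβ]
    exact monotone_arcsin h1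
  have hA0 : 0 < A := by linarith [pi_pos]
  by_cases h3 : π / 3 ≤ ε
  · have : 6 / π * A * (π / 3) ≤ 6 / π * A * ε := by
      apply mul_le_mul_of_nonneg_left h3
      positivity
    have e : 6 / π * A * (π / 3) = 2 * A := by field_simp; norm_num
    linarith
  · push Not at h3
    have h4 := numeric1 hA1 hA2 (y := ε / 2) (by linarith) (by linarith)
    have h5 : sin β ≤ sin (6 * A * (ε / 2) / π) := by
      calc sin β ≤ τ * sin (ε / 2) := h2
        _ = 2 * sin A * sin (ε / 2) := by rw [hsA]; ring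
        _ ≤ _ := h4
    have h6 : 6 * A * (ε / 2) / π ≤ A := by
      rw [div_le_iff₀ pi_pos]
      nlinarith
    have h7 : 0 ≤ 6 * A * (ε / 2) / π := by positivity
    have h8 : β ≤ 6 * A * (ε / 2) / π := by
      have := monotone_arcsin h5
      rwa [arcsin_sin (by linarith [pi_pos]) hβ, arcsin_sin (by linarith [pi_pos]) (by linarith)] at this
    have e : 6 / π * A * ε = 2 * (6 * A * (ε / 2) / π) := by ring
    rw [e]; linarith

end Pool.Agent.Fac573
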