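import Mathlib
import Pool.Agent.MP_fac573_co.Integ
import Pool.Agent.MP_fac573_co.Numeric

set_option autoImplicit false

open Set Metric Real MeasureTheory

namespace Pool.Agent.Fac573

lemma vol_periodic {N : Set ℝ} (hN : MeasurableSet N) (hper : ∀ θ, θ + 2 * π ∈ N ↔ θ ∈ N)
    (a b : ℝ) : volume.real (N ∩ Ioc a (a + 2 * π)) = volume.real (N ∩ Ioc b (b + 2 * π)) := by
  have hp : Function.Periodic (N.indicator (fun _ => (1:ℝ))) (2 * π) := by
    intro θ
    by_cases h : θ ∈ N
    · rw [indicator_of_mem h, indicator_of_mem ((hper θ).2 h)]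
    · rw [indicator_of_notMem h, indicator_of_notMem (fun h' => h ((hper θ).1 h'))]
  have h1 := hp.intervalIntegral_add_eq a b
  rw [integral_indicator_const' hN 1 (by linarith [pi_pos]),
    integral_indicator_const' hN 1 (by linarith [pi_pos])] at h1
  linarith

/-- Directions supported at `v`. -/
def N (C : Finset E) (r : ℝ) (v : E) : Set ℝ := {θ | P C r (u θ) = v}

lemma N_per (C : Finset E) (r : ℝ) (v : E) (θ : ℝ) : θ + 2 * π ∈ N C r v ↔ θ ∈ N C r v := by
  simp only [N, mem_ofPred_eq, u_add_two_pi]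

lemma S_per (C : Finset E) (r : ℝ) (θ : ℝ) : θ + 2 * π ∈ S C r ↔ θ ∈ S C r := by
  simp only [S, mem_ofPred_eq, u_add_two_pi]

section
variable {C : Finset E} (hC : C.Nonempty) {r : ℝ} (hr : 0 < r) (hD : (D C r).Nonempty)
include hC hr hD

lemma isClosed_N (v : E) : IsClosed (N C r v) :=
  isClosed_singleton.preimage (continuous_P hC hr hD)

lemma N_between {v : E} {a b θ : ℝ} (ha : a ∈ N C r v) (hb : b ∈ N C r v)
    (haθ : a ≤ θ) (hθb : θ ≤ b) (hab : a < b) (hba : b - a < π) : θ ∈ N C r v := by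
  have hvD : v ∈ D C r := by
    have := P_mem hC hD (u a)
    rwa [show P C r (u a) = v from ha] at this
  apply P_unique hC hr hD (norm_u θ) hvD
  intro z hz
  have h1 : inner ℝ z (u a) ≤ inner ℝ v (u a) := by
    have := P_max hC hD (u a) hz
    rwa [show P C r (u a) = v from ha] at this
  have h2 : inner ℝ z (u b) ≤ inner ℝ v (u b) := by
    have := P_max hC hD (u b) hz
    rwa [show P C r (u b) = v from hb] at this
  have hs : 0 < sin (b - a) := sin_pos_of_pos_of_lt_pi (by linarith) hba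
  have hs1 : 0 ≤ sin (b - θ) := sin_nonneg_of_nonneg_of_le_pi (by linarith) (by linarith)
  have hs2 : 0 ≤ sin (θ - a) := sin_nonneg_of_nonneg_of_le_pi (by linarith) (by linarith)
  have hcomb : sin (b - a) • u θ = sin (b - θ) • u a + sin (θ - a) • u b := by
    apply ext2
    · simp only [PiLp.smul_apply, PiLp.add_apply, u_zero, smul_eq_mul, sin_sub]
      nlinarith [sin_sq_add_cos_sq θ]
    · simp only [PiLp.smul_apply, PiLp.add_apply, u_one, smul_eq_mul, sin_sub]
      ring_nf
  have h3 : sin (b - a) * inner ℝ z (u θ) ≤ sin (b - a) * inner ℝ v (u θ) := by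
    rw [← inner_smul_right, ← inner_smul_right, hcomb, inner_add_right, inner_add_right,
      inner_smul_right, inner_smul_right, inner_smul_right, inner_smul_right]
    have := mul_le_mul_of_nonneg_left h1 hs1
    have := mul_le_mul_of_nonneg_left h2 hs2
    linarith
  exact le_of_mul_le_mul_left h3 hs

/-- The main local inequality at a vertex. -/
lemma vertex_ineq {t : ℝ} (hrt : r ≤ t) (ht2 : t ≤ 2 * r)
    (hdiam : ∀ x ∈ C, ∀ y ∈ C, dist x y ≤ t) (v : E) (hz : ∃ z ∈ D C r, z ≠ v) :
    volume.real (N C r v ∩ Ioc 0 (2 * π)) ≤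
      6 / π * arcsin (t / r / 2) * volume.real ((S C t)ᶜ ∩ N C r v ∩ Ioc 0 (2 * π)) := by
  have ht : 0 < t := lt_of_lt_of_le hr hrt
  have hDt : (D C t).Nonempty := by
    obtain ⟨p, hp⟩ := hD
    exact ⟨p, mem_D.2 fun c hc => (mem_D.1 hp c hc).trans hrt⟩
  have hNc := isClosed_N hC hr hD v
  have hNm := hNc.measurableSet
  have hSm := measurableSet_S C t
  have hcoef : 0 ≤ 6 / π * arcsin (t / r / 2) := by
    have : 0 ≤ arcsin (t / r / 2) := arcsin_nonneg.2 (by positivity)
    positivity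
  obtain ⟨z, hzD, hzv⟩ := hz
  obtain ⟨ρ, ω, hρ0, hρω⟩ := exists_polar (z - v)
  have hρ : 0 < ρ := by
    rcases eq_or_lt_of_le hρ0 with h | h
    · exfalso; apply hzv
      rw [← h, zero_smul, sub_eq_zero] at hρω
      exact hρω
    · exact h
  have hcos : ∀ θ ∈ N C r v, cos (θ - ω) < 0 := by
    intro θ hθ
    have h1 := P_K hC hr hD (norm_u θ) hzD
    rw [show P C r (u θ) = v from hθ, hρω, norm_smul, norm_u, inner_smul_left, inner_u_u,
      Real.norm_of_nonneg hρ0] at h1
    simp only [conj_trivial, mul_one] at h1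
    rw [← cos_neg, neg_sub]
    by_contra hcon
    push Not at hcon
    have : 0 ≤ 2 * r * (ρ * cos (ω - θ)) := by positivity
    nlinarith [sq_pos_of_pos hρ]
  -- shift of the windows
  have e1 : volume.real (N C r v ∩ Ioc 0 (2 * π)) =
      volume.real (N C r v ∩ Ioc ω (ω + 2 * π)) := by
    have := vol_periodic hNm (N_per C r v) 0 ω
    rwa [zero_add] at this
  have e2 : volume.real ((S C t)ᶜ ∩ N C r v ∩ Ioc 0 (2 * π)) =
      volume.real ((S C t)ᶜ ∩ N C r v ∩ Ioc ω (ω + 2 * π)) := by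
    have := vol_periodic (hSm.compl.inter hNm) (fun θ => by
      simp only [mem_inter_iff, mem_compl_iff, N_per, S_per]) 0 ω
    rwa [zero_add] at this
  rw [e1, e2]
  set K := N C r v ∩ Icc (ω + π / 2) (ω + 3 * π / 2) with hK
  have hwin : ∀ θ ∈ N C r v ∩ Ioc ω (ω + 2 * π), ω + π / 2 < θ ∧ θ < ω + 3 * π / 2 := by
    rintro θ ⟨hθN, hθ⟩
    have h1 := hcos θ hθN
    constructor
    · by_contra hcon
      push Not at hcon
      have : 0 ≤ cos (θ - ω) := cos_nonneg_of_neg_pi_div_two_le_of_le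
        (by linarith [hθ.1, pi_pos]) (by linarith)
      linarith
    · by_contra hcon
      push Not at hcon
      have : 0 ≤ cos (θ - ω - 2 * π) := cos_nonneg_of_neg_pi_div_two_le_of_le
        (by linarith [hθ.1, pi_pos]) (by linarith [hθ.2, pi_pos])
      rw [cos_sub_two_pi] at this
      linarith
  have hKeq : N C r v ∩ Ioc ω (ω + 2 * π) = K := by
    ext θ
    constructor
    · intro h
      have := hwin θ h
      exact ⟨h.1, this.1.le, this.2.le⟩
    · rintro ⟨h1, h2⟩
      refine ⟨h1, ?_, ?_⟩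
      · linarith [h2.1, pi_pos]
      · linarith [h2.2, pi_pos]
  rcases K.eq_empty_or_nonempty with hKe | hKne
  · have h1 : volume.real (N C r v ∩ Ioc ω (ω + 2 * π)) = 0 := by rw [hKeq, hKe]; simp
    rw [h1]
    exact mul_nonneg hcoef measureReal_nonneg
  have hKcomp : IsCompact K := isCompact_Icc.inter_left hNc
  obtain ⟨a, haK, hamin⟩ := hKcomp.exists_isLeast hKne
  obtain ⟨b, hbK, hbmax⟩ := hKcomp.exists_isGreatest hKne
  have haw : ω + π / 2 < a := (hwin a (by rw [hKeq]; exact haK)).1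
  have hbw : b < ω + 3 * π / 2 := (hwin b (by rw [hKeq]; exact hbK)).2
  have hab : a ≤ b := hamin hbK
  have hba : b - a < π := by linarith
  have hKIcc : K = Icc a b := by
    ext θ
    constructor
    · intro h; exact ⟨hamin h, hbmax h⟩
    · rintro ⟨h1, h2⟩
      refine ⟨?_, by linarith, by linarith⟩
      rcases eq_or_lt_of_le hab with h | h
      · have : θ = a := by linarith
        rw [this]; exact haK.1
      · exact N_between hC hr hD haK.1 hbK.1 h1 h2 h hba
  -- the endpoints lie in S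
  have haS : a ∈ S C r := by
    by_contra hcon
    have h1 := eventually_const hC hr hD hcon
    have h2 : ∀ᶠ φ in nhds a, ω + π / 2 < φ := lt_mem_nhds haw
    have h3 : ∀ᶠ φ in nhdsWithin a (Iio a), φ < a := self_mem_nhdsWithin
    obtain ⟨φ, ⟨h4, h5⟩, h6⟩ := (((h1.and h2).filter_mono nhdsWithin_le_nhds).and h3).exists
    have h7 : φ ∈ K := by
      refine ⟨?_, h5.le, by linarith⟩
      show P C r (u φ) = v
      rw [h4]; exact haK.1
    have := hamin h7
    linarith
  have hbS : b ∈ S C r := by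
    by_contra hcon
    have h1 := eventually_const hC hr hD hcon
    have h2 : ∀ᶠ φ in nhds b, φ < ω + 3 * π / 2 := gt_mem_nhds hbw
    have h3 : ∀ᶠ φ in nhdsWithin b (Ioi b), b < φ := self_mem_nhdsWithin
    obtain ⟨φ, ⟨h4, h5⟩, h6⟩ := (((h1.and h2).filter_mono nhdsWithin_le_nhds).and h3).exists
    have h7 : φ ∈ K := by
      refine ⟨?_, by linarith, h5.le⟩
      show P C r (u φ) = v
      rw [h4]; exact hbK.1
    have := hbmax h7
    linarith
  obtain ⟨ca, hca, hcaD⟩ := haS
  obtain ⟨cb, hcb, hcbD⟩ := hbS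
  have hva : v = ca + r • u a := by
    rw [← P_eq_of_mem_S hC hr hD hca hcaD]; exact haK.1.symm
  have hvb : v = cb + r • u b := by
    rw [← P_eq_of_mem_S hC hr hD hcb hcbD]; exact hbK.1.symm
  have htrans : ∀ c ∈ C, ∀ θ, c + r • u θ ∈ D C r → c + t • u θ ∈ D C t := by
    intro c hc θ h
    rw [mem_D]
    intro c' hc'
    have h1 := mem_D.1 h c' hc'
    rw [dist_eq_norm] at h1 ⊢
    have e : c + t • u θ - c' = (c + r • u θ - c') + (t - r) • u θ := by module
    rw [e]
    calc _ ≤ ‖c + r • u θ - c'‖ + ‖(t - r) • u θ‖ := norm_add_le _ _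
      _ ≤ r + (t - r) := by
        rw [norm_smul, norm_u, Real.norm_of_nonneg (by linarith), mul_one]
        linarith
      _ = t := by ring
  have hPa := P_eq_of_mem_S hC ht hDt hca (htrans ca hca a hcaD)
  have hPb := P_eq_of_mem_S hC ht hDt hcb (htrans cb hcb b hcbD)
  set β := (b - a) / 2 with hβ
  have hβ0 : 0 ≤ β := by rw [hβ]; linarith
  have hsβ : 0 ≤ sin β := sin_nonneg_of_nonneg_of_le_pi hβ0 (by linarith)
  have hdist : 2 * r * sin β ≤ t := by
    have h1 := hdiam ca hca cb hcb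
    have h2 : ca - cb = r • (u b - u a) := by
      have h3 : ca = v - r • u a := by rw [hva]; abel
      have h4 : cb = v - r • u b := by rw [hvb]; abel
      rw [h3, h4]; module
    rw [dist_eq_norm, h2, norm_smul, norm_u_sub_u, Real.norm_of_nonneg hr.le, ← hβ,
      abs_of_nonneg hsβ] at h1
    linarith
  set m := (a + b) / 2 with hm
  have hdisp := integral_disp hC ht hDt m a b
  have hdisp2 : P C t (u b) - P C t (u a) = (t - r) • (u b - u a) := by
    rw [hPa, hPb]
    have h3 : ca = v - r • u a := by rw [hva]; abel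
    have h4 : cb = v - r • u b := by rw [hvb]; abel
    rw [h3, h4]; module
  rw [hdisp2, inner_smul_left, u_sub_u, inner_smul_left, inner_w_w, ← hβ, ← hm] at hdisp
  simp only [conj_trivial, sub_self, cos_zero, mul_one] at hdisp
  have hS1 : ∫ θ in a..b, (S C t).indicator (fun θ => t * cos (θ - m)) θ =
      t * ∫ θ in a..b, (S C t).indicator (fun θ => cos (θ - m)) θ := by
    rw [← intervalIntegral.integral_const_mul]
    congr 1
    ext θ
    by_cases h : θ ∈ S C t
    · simp [h]
    · simp [h]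
  rw [hS1] at hdisp
  have htot : ∫ θ in a..b, cos (θ - m) = 2 * sin β := by
    rw [intervalIntegral.integral_comp_sub_right (fun x => cos x) m, integral_cos]
    have e3 : b - m = β := by rw [hm, hβ]; ring
    have e4 : a - m = -β := by rw [hm, hβ]; ring
    rw [e3, e4, sin_neg]; ring
  have hsplit : ∫ θ in a..b, ((S C t)ᶜ).indicator (fun θ => cos (θ - m)) θ =
      2 * sin β - ∫ θ in a..b, (S C t).indicator (fun θ => cos (θ - m)) θ := by
    rw [← htot, ← intervalIntegral.integral_sub]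
    · congr 1
      ext θ
      by_cases h : θ ∈ S C t
      · simp [h]
      · simp [h]
    · apply Continuous.intervalIntegrable; fun_prop
    · exact intervalIntegrable_indicator hSm (by fun_prop) _ _
  have hbath := bathtub hSm.compl hab hba.le
  rw [← hm, hsplit] at hbath
  set ε := volume.real ((S C t)ᶜ ∩ Ioc a b) with hε
  have hε0 : 0 ≤ ε := measureReal_nonneg
  have hkey : r * sin β ≤ t * sin (ε / 2) := by
    have h1 : t * (2 * sin β - ∫ θ in a..b, (S C t).indicator (fun θ => cos (θ - m)) θ) ≤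
        t * (2 * sin (ε / 2)) := mul_le_mul_of_nonneg_left hbath ht.le
    rw [mul_sub, hdisp] at h1
    linarith
  have hnum : 2 * β ≤ 6 / π * arcsin (t / r / 2) * ε := by
    apply numeric2
    · rw [le_div_iff₀ hr]; linarith
    · rw [div_le_iff₀ hr]; linarith
    · exact hβ0
    · linarith
    · exact hε0
    · rw [div_div, le_div_iff₀ (by positivity)]; linarith
    · rw [div_mul_eq_mul_div, le_div_iff₀ hr]; linarith
  have hvolN : volume.real (N C r v ∩ Ioc ω (ω + 2 * π)) = 2 * β := by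
    rw [hKeq, hKIcc, measureReal_def, Real.volume_Icc, ENNReal.toReal_ofReal (by linarith), hβ]
    ring
  have hvolG : ε ≤ volume.real ((S C t)ᶜ ∩ N C r v ∩ Ioc ω (ω + 2 * π)) := by
    rw [inter_assoc, hKeq, hKIcc, hε]
    apply measureReal_mono
    · exact inter_subset_inter_right _ Ioc_subset_Icc_self
    · apply ne_of_lt
      apply lt_of_le_of_lt (measure_mono inter_subset_right)
      simp
  rw [hvolN]
  exact hnum.trans (mul_le_mul_of_nonneg_left hvolG hcoef)

/-- The total angle of the vertices. -/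
lemma vol_G_le {t : ℝ} (hrt : r ≤ t) (ht2 : t ≤ 2 * r)
    (hdiam : ∀ x ∈ C, ∀ y ∈ C, dist x y ≤ t) (hnt : (D C r).Nontrivial) :
    volume.real ((S C r)ᶜ ∩ Ioc 0 (2 * π)) ≤ 6 * arcsin (t / r / 2) := by
  have ht : 0 < t := lt_of_lt_of_le hr hrt
  have hDt : (D C t).Nonempty := by
    obtain ⟨p, hp⟩ := hD
    exact ⟨p, mem_D.2 fun c hc => (mem_D.1 hp c hc).trans hrt⟩
  have hSm := measurableSet_S C t
  have hcoef : 0 ≤ 6 / π * arcsin (t / r / 2) := by
    have : 0 ≤ arcsin (t / r / 2) := arcsin_nonneg.2 (by positivity)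
    positivity
  set VF := (finite_V C r).toFinset with hVF
  have h1 : (S C r)ᶜ ∩ Ioc 0 (2 * π) ⊆ ⋃ v ∈ VF, (N C r v ∩ Ioc 0 (2 * π)) := by
    rintro θ ⟨h1, h2⟩
    simp only [mem_iUnion]
    exact ⟨P C r (u θ), by rw [hVF, Set.Finite.mem_toFinset]; exact P_mem_V hC hr hD h1, rfl, h2⟩
  have hfin : volume (⋃ v ∈ VF, (N C r v ∩ Ioc 0 (2 * π))) ≠ ⊤ := by
    apply ne_of_lt
    apply lt_of_le_of_lt (measure_mono (t := Ioc 0 (2 * π)) _)
    · exact measure_Ioc_lt_top
    · simp only [iUnion_subset_iff]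
      intro _ _
      exact inter_subset_right
  have h2 : volume.real ((S C r)ᶜ ∩ Ioc 0 (2 * π)) ≤
      ∑ v ∈ VF, volume.real (N C r v ∩ Ioc 0 (2 * π)) :=
    (measureReal_mono h1 hfin).trans (measureReal_biUnion_finset_le _ _)
  have h3 : ∑ v ∈ VF, volume.real (N C r v ∩ Ioc 0 (2 * π)) ≤
      ∑ v ∈ VF, 6 / π * arcsin (t / r / 2) *
        volume.real ((S C t)ᶜ ∩ N C r v ∩ Ioc 0 (2 * π)) := by
    apply Finset.sum_le_sum
    intro v _
    apply vertex_ineq hC hr hD hrt ht2 hdiam v
    exact hnt.exists_ne v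
  have h4 : ∑ v ∈ VF, volume.real ((S C t)ᶜ ∩ N C r v ∩ Ioc 0 (2 * π)) =
      volume.real (⋃ v ∈ VF, (S C t)ᶜ ∩ N C r v ∩ Ioc 0 (2 * π)) := by
    symm
    apply measureReal_biUnion_finset
    · intro v _ v' _ hne
      rw [Function.onFun, Set.disjoint_left]
      rintro θ ⟨⟨_, h5⟩, _⟩ ⟨⟨_, h6⟩, _⟩
      exact hne (h5.symm.trans h6)
    · intro v _
      exact (hSm.compl.inter (isClosed_N hC hr hD v).measurableSet).inter measurableSet_Ioc
    · intro v _
      apply ne_of_lt
      apply lt_of_le_of_lt (measure_mono inter_subset_right)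
      exact measure_Ioc_lt_top
  have h5 : volume.real (⋃ v ∈ VF, (S C t)ᶜ ∩ N C r v ∩ Ioc 0 (2 * π)) ≤
      volume.real ((S C t)ᶜ ∩ Ioc 0 (2 * π)) := by
    apply measureReal_mono
    · simp only [iUnion_subset_iff]
      intro v _
      exact inter_subset_inter_left _ inter_subset_left
    · apply ne_of_lt
      apply lt_of_le_of_lt (measure_mono inter_subset_right)
      exact measure_Ioc_lt_top
  have h6 : volume.real ((S C t)ᶜ ∩ Ioc 0 (2 * π)) ≤ π := by
    rw [vol_compl hSm (by positivity)]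
    have := vol_S_ge hC ht hDt hdiam
    linarith
  calc volume.real ((S C r)ᶜ ∩ Ioc 0 (2 * π)) ≤ _ := h2
    _ ≤ _ := h3
    _ = 6 / π * arcsin (t / r / 2) *
          ∑ v ∈ VF, volume.real ((S C t)ᶜ ∩ N C r v ∩ Ioc 0 (2 * π)) := by
        rw [Finset.mul_sum]
    _ ≤ 6 / π * arcsin (t / r / 2) * π := by
        apply mul_le_mul_of_nonneg_left _ hcoef
        rw [h4]; exact h5.trans h6
    _ = 6 * arcsin (t / r / 2) := by field_simp

end

end Pool.Agent.Fac573
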