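import Mathlib
import Pool.Agent.MP_fac573_co.Vertex
import Pool.Agent.MP_fac573_co.Jung

set_option autoImplicit false

open Set Metric Real MeasureTheory Measure
open scoped ENNReal NNReal

namespace Pool.Agent.Fac573

lemma antilip_u {δ : ℝ} (hδ1 : δ ≤ 1) {x y : ℝ} (h : |x - y| ≤ δ) :
    (1 - δ ^ 2 / 24) * |x - y| ≤ ‖u x - u y‖ := by
  rw [norm_u_sub_u y x]
  set s := |x - y| with hs
  have hs0 : 0 ≤ s := abs_nonneg _
  have hδ0 : 0 ≤ δ := hs0.trans h
  have e1 : |sin ((x - y) / 2)| = sin (s / 2) := by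
    have h2 : |(x - y) / 2| = s / 2 := by rw [abs_div, ← hs]; simp
    rw [← h2]
    apply Real.abs_sin_eq_sin_abs_of_abs_le_pi
    rw [h2]
    linarith [pi_gt_three]
  rw [e1]
  rcases eq_or_lt_of_le hs0 with h0 | h0
  · rw [← h0]; simp
  · have h3 := sin_gt_sub_cube (x := s / 2) (by positivity)
    have h4 : s ^ 2 ≤ δ ^ 2 := pow_le_pow_left₀ hs0 h 2
    have h5 : s * s ^ 2 ≤ s * δ ^ 2 := mul_le_mul_of_nonneg_left h4 hs0
    nlinarith

lemma local_bound (c : E) {δ : ℝ} (hδ0 : 0 ≤ δ) (hδ1 : δ ≤ 1) (T : Set ℝ)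
    (hT : ∀ x ∈ T, ∀ y ∈ T, |x - y| ≤ δ) :
    ENNReal.ofReal (1 - δ ^ 2 / 24) * volume T ≤ μH[1] ((fun θ => c + u θ) '' T) := by
  have hpos : 0 < 1 - δ ^ 2 / 24 := by nlinarith
  set f : ℝ → E := fun θ => c + u θ with hf
  have hinj : InjOn f T := by
    intro x hx y hy hxy
    have h1 := antilip_u hδ1 (hT x hx y hy)
    have h2 : u x - u y = 0 := by
      have : u x = u y := by simpa [hf] using hxy
      rw [this, sub_self]
    rw [h2, norm_zero] at h1
    have h3 : |x - y| = 0 := by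
      apply le_antisymm _ (abs_nonneg _)
      by_contra hcon
      push Not at hcon
      have := mul_pos hpos hcon
      linarith
    rw [abs_eq_zero, sub_eq_zero] at h3
    exact h3
  set g := Function.invFunOn f T with hg
  have hgf : ∀ x ∈ T, g (f x) = x := fun x hx => hinj.leftInvOn_invFunOn hx
  have hlip : LipschitzOnWith (Real.toNNReal (1 - δ ^ 2 / 24)⁻¹) g (f '' T) := by
    apply LipschitzOnWith.of_dist_le_mul
    rintro _ ⟨x, hx, rfl⟩ _ ⟨y, hy, rfl⟩
    rw [hgf x hx, hgf y hy, Real.coe_toNNReal _ (by positivity), Real.dist_eq, dist_eq_norm]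
    have h1 := antilip_u hδ1 (hT x hx y hy)
    have h2 : f x - f y = u x - u y := by simp only [hf]; abel
    rw [h2, inv_mul_eq_div, le_div_iff₀ hpos]
    linarith
  have himg : g '' (f '' T) = T := by
    rw [image_image]
    ext x
    constructor
    · rintro ⟨y, hy, rfl⟩
      simp only
      rw [hgf y hy]; exact hy
    · intro hx; exact ⟨x, hx, hgf x hx⟩
  have h1 := hlip.hausdorffMeasure_image_le (d := 1) zero_le_one
  rw [himg, hausdorffMeasure_real, ENNReal.rpow_one] at h1
  calc ENNReal.ofReal (1 - δ ^ 2 / 24) * volume T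
      ≤ ENNReal.ofReal (1 - δ ^ 2 / 24) * (((1 - δ ^ 2 / 24)⁻¹.toNNReal : ℝ≥0∞) * μH[1] (f '' T)) := by
        gcongr
    _ = (ENNReal.ofReal (1 - δ ^ 2 / 24) * ENNReal.ofReal ((1 - δ ^ 2 / 24)⁻¹)) * μH[1] (f '' T) := by
        rw [mul_assoc]; rfl
    _ = μH[1] (f '' T) := by
        rw [← ENNReal.ofReal_mul hpos.le, mul_inv_cancel₀ hpos.ne', ENNReal.ofReal_one, one_mul]

lemma injOn_circ (c : E) : InjOn (fun θ => c + u θ) (Ioc 0 (2 * π)) := by
  intro x hx y hy hxy
  have h1 : u x = u y := by simpa using hxy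
  have h2 : cos (x - y) = 1 := by
    rw [← inner_u_u, h1, real_inner_self_eq_norm_sq, norm_u]; norm_num
  rw [Real.cos_eq_one_iff_of_lt_of_lt] at h2
  · linarith
  · linarith [hx.1, hy.2]
  · linarith [hx.2, hy.1]

lemma global_bound (c : E) {T : Set ℝ} (hTm : MeasurableSet T) (hT : T ⊆ Ioc 0 (2 * π)) :
    volume T ≤ μH[1] ((fun θ => c + u θ) '' T) := by
  set f : ℝ → E := fun θ => c + u θ with hf
  have hfc : Continuous f := by
    have := continuous_u
    fun_prop
  have hinj := injOn_circ c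
  have hTfin : volume T ≠ ⊤ := by
    apply ne_of_lt
    exact lt_of_le_of_lt (measure_mono hT) measure_Ioc_lt_top
  have hn : ∀ n : ℕ, 7 ≤ n →
      ENNReal.ofReal (1 - (2 * π / n) ^ 2 / 24) * volume T ≤ μH[1] (f '' T) := by
    intro n hn7
    have hnpos : (0:ℝ) < n := by positivity
    set δ := 2 * π / n with hδ
    have hδ0 : 0 < δ := by positivity
    have hδ1 : δ ≤ 1 := by
      rw [hδ, div_le_one hnpos]
      have : (7:ℝ) ≤ n := by exact_mod_cast hn7
      have := pi_lt_d2
      linarith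
    set q : ℕ → ℝ := fun k => k * δ with hq
    have hqm : Monotone q := by
      intro i j hij
      simp only [hq]
      have : (i:ℝ) ≤ j := by exact_mod_cast hij
      nlinarith
    have hunion : ⋃ k ∈ Ico 0 n, Ioc (q k) (q (k + 1)) = Ioc 0 (2 * π) := by
      have h1 := hqm.biUnion_Ico_Ioc_map_succ 0 n
      have e0 : q 0 = 0 := by simp [hq]
      have en : q n = 2 * π := by simp only [hq, hδ]; field_simp
      rw [e0, en] at h1
      exact h1
    have hdisj : Pairwise (Function.onFun Disjoint fun k => Ioc (q k) (q (k + 1))) :=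
      hqm.pairwise_disjoint_on_Ioc_succ
    have hTun : T = ⋃ k ∈ Finset.range n, T ∩ Ioc (q k) (q (k + 1)) := by
      ext x
      simp only [mem_iUnion, mem_inter_iff, Finset.mem_range, exists_prop]
      constructor
      · intro hx
        have h1 : x ∈ ⋃ k ∈ Ico 0 n, Ioc (q k) (q (k + 1)) := by rw [hunion]; exact hT hx
        simp only [mem_iUnion, exists_prop] at h1
        obtain ⟨k, hk, hkx⟩ := h1
        exact ⟨k, hk.2, hx, hkx⟩
      · rintro ⟨k, _, hx, _⟩; exact hx
    have himg : f '' T = ⋃ k ∈ Finset.range n, f '' (T ∩ Ioc (q k) (q (k + 1))) := by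
      conv_lhs => rw [hTun]
      rw [image_iUnion₂]
    have hmeas : ∀ k ∈ Finset.range n, MeasurableSet (f '' (T ∩ Ioc (q k) (q (k + 1)))) := by
      intro k _
      apply MeasurableSet.image_of_continuousOn_injOn (hTm.inter measurableSet_Ioc)
      · exact hfc.continuousOn
      · exact hinj.mono (inter_subset_left.trans hT)
    have hd : (↑(Finset.range n) : Set ℕ).PairwiseDisjoint
        (fun k => f '' (T ∩ Ioc (q k) (q (k + 1)))) := by
      intro i _ j _ hij
      rw [Function.onFun, Set.disjoint_left]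
      rintro _ ⟨x, ⟨hxT, hx⟩, rfl⟩ ⟨y, ⟨hyT, hy⟩, hxy⟩
      have : y = x := hinj (hT hyT) (hT hxT) hxy
      subst this
      exact Set.disjoint_left.1 (hdisj hij) hx hy
    rw [himg, measure_biUnion_finset hd hmeas]
    calc ENNReal.ofReal (1 - δ ^ 2 / 24) * volume T
        ≤ ENNReal.ofReal (1 - δ ^ 2 / 24) *
            ∑ k ∈ Finset.range n, volume (T ∩ Ioc (q k) (q (k + 1))) := by
          gcongr
          conv_lhs => rw [hTun]
          exact measure_biUnion_finset_le _ _
      _ = ∑ k ∈ Finset.range n, ENNReal.ofReal (1 - δ ^ 2 / 24) *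
            volume (T ∩ Ioc (q k) (q (k + 1))) := by rw [Finset.mul_sum]
      _ ≤ _ := by
          apply Finset.sum_le_sum
          intro k _
          apply local_bound c hδ0.le hδ1
          rintro x ⟨-, hx⟩ y ⟨-, hy⟩
          have e : q (k + 1) = q k + δ := by simp only [hq]; push_cast; ring
          rw [e] at hx hy
          rw [abs_le]
          constructor <;> linarith [hx.1, hx.2, hy.1, hy.2]
  have hlim : Filter.Tendsto (fun n : ℕ => ENNReal.ofReal (1 - (2 * π / n) ^ 2 / 24) * volume T)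
      Filter.atTop (nhds (ENNReal.ofReal (1 - 0 ^ 2 / 24) * volume T)) := by
    apply ENNReal.Tendsto.mul_const _ (Or.inr hTfin)
    apply ENNReal.tendsto_ofReal
    have h1 : Filter.Tendsto (fun n : ℕ => 2 * π / (n:ℝ)) Filter.atTop (nhds 0) :=
      tendsto_const_div_atTop_nhds_zero_nat (2 * π)
    exact ((h1.pow 2).div_const 24).const_sub 1
  have e : ENNReal.ofReal (1 - 0 ^ 2 / 24) * volume T = volume T := by simp
  rw [e] at hlim
  refine le_of_tendsto hlim ?_
  filter_upwards [Filter.eventually_ge_atTop 7] with n hn7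
  exact hn n hn7

/-- The perimeter bound. -/
theorem main_bound {t : ℝ} (ht1 : 1 ≤ t) (ht3 : t < √3) {C : Finset E} (hC : C.Nonempty)
    (hdiam : ∀ x ∈ C, ∀ y ∈ C, dist x y ≤ t) :
    ENNReal.ofReal (2 * π - 6 * arcsin (t / 2)) ≤ μH[1] (frontier (D C 1)) := by
  have ht0 : 0 < t := by linarith
  have hnt := nontrivial_D hC ht0 ht3 hdiam
  have hD := hnt.nonempty
  have ht2 : t ≤ 2 * 1 := by
    have : √3 ≤ 2 := by
      rw [Real.sqrt_le_left (by norm_num)]; norm_num
    linarith
  have hG := vol_G_le hC one_pos hD ht1 ht2 hdiam hnt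
  rw [div_one] at hG
  have hSm := measurableSet_S C 1
  have hSvol : 2 * π - 6 * arcsin (t / 2) ≤ volume.real (S C 1 ∩ Ioc 0 (2 * π)) := by
    have := vol_compl hSm (a := 0) (b := 2 * π) (by positivity)
    rw [this] at hG
    linarith
  set T : E → Set ℝ := fun c => {θ | c + (1:ℝ) • u θ ∈ D C 1} ∩ Ioc 0 (2 * π) with hT
  have hTm : ∀ c, MeasurableSet (T c) := by
    intro c
    apply MeasurableSet.inter _ measurableSet_Ioc
    apply IsClosed.measurableSet
    apply IsClosed.preimage _ (isClosed_D C 1)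
    have := continuous_u
    fun_prop
  have hST : S C 1 ∩ Ioc 0 (2 * π) = ⋃ c ∈ C, T c := by
    ext θ
    simp only [S, hT, mem_inter_iff, mem_ofPred_eq, mem_iUnion, exists_prop]
    constructor
    · rintro ⟨⟨c, hc, h⟩, hθ⟩
      exact ⟨c, hc, h, hθ⟩
    · rintro ⟨c, hc, h, hθ⟩
      exact ⟨⟨c, hc, h⟩, hθ⟩
  set Arc : E → Set E := fun c => sphere c 1 ∩ D C 1 with hArc
  have hArcm : ∀ c, MeasurableSet (Arc c) := fun c =>
    (isClosed_sphere.inter (isClosed_D C 1)).measurableSet
  have hArcfr : ⋃ c ∈ C, Arc c ⊆ frontier (D C 1) := by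
    simp only [iUnion_subset_iff]
    rintro c hc x ⟨hx1, hx2⟩
    rw [(isClosed_D C 1).frontier_eq]
    refine ⟨hx2, ?_⟩
    intro hint
    have h1 : D C 1 ⊆ closedBall c 1 := fun z hz => mem_closedBall.2 (mem_D.1 hz c hc)
    have h2 := interior_mono h1 hint
    rw [interior_closedBall c one_ne_zero, mem_ball] at h2
    rw [mem_sphere] at hx1
    linarith
  have hmeasU : μH[1] (⋃ c ∈ C, Arc c) = ∑ c ∈ C, μH[1] (Arc c) := by
    apply measure_biUnion_finset₀
    · intro c _ c' _ hne
      show μH[1] (Arc c ∩ Arc c') = 0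
      have hfin := finite_two_circles hne 1
      have hz : μH[1] {z : E | dist z c = 1 ∧ dist z c' = 1} = 0 := by
        have : NullSingletonClass (μH[1] : Measure E) := nullSingletonClass_hausdorff E one_pos
        exact hfin.measure_zero _
      apply measure_mono_null _ hz
      rintro z ⟨⟨h1, _⟩, ⟨h2, _⟩⟩
      exact ⟨h1, h2⟩
    · intro c _
      exact (hArcm c).nullMeasurableSet
  have hlow : ∀ c ∈ C, volume (T c) ≤ μH[1] (Arc c) := by
    intro c hc
    refine (global_bound c (hTm c) inter_subset_right).trans ?_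
    apply measure_mono
    rintro _ ⟨θ, ⟨hθ, -⟩, rfl⟩
    simp only [mem_ofPred_eq, one_smul] at hθ
    refine ⟨?_, hθ⟩
    rw [mem_sphere, dist_eq_norm]
    simp [norm_u]
  calc ENNReal.ofReal (2 * π - 6 * arcsin (t / 2))
      ≤ ENNReal.ofReal (volume.real (S C 1 ∩ Ioc 0 (2 * π))) := ENNReal.ofReal_le_ofReal hSvol
    _ = volume (S C 1 ∩ Ioc 0 (2 * π)) := by
        rw [measureReal_def, ENNReal.ofReal_toReal]
        exact (lt_of_le_of_lt (measure_mono inter_subset_right) measure_Ioc_lt_top).ne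
    _ = volume (⋃ c ∈ C, T c) := by rw [hST]
    _ ≤ ∑ c ∈ C, volume (T c) := measure_biUnion_finset_le _ _
    _ ≤ ∑ c ∈ C, μH[1] (Arc c) := Finset.sum_le_sum hlow
    _ = μH[1] (⋃ c ∈ C, Arc c) := hmeasU.symm
    _ ≤ μH[1] (frontier (D C 1)) := measure_mono hArcfr

end Pool.Agent.Fac573
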